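import Mathlib

set_option autoImplicit false

/-!
# The extended Coxeter group `W⁺ = W ⋊ Aut(W, S)`
-/

namespace Pool.Agent.X260.QP

variable {B : Type*} {M : CoxeterMatrix B} {W : Type*} [Group W] (cs : CoxeterSystem M W)

/-- `Aut(W, S)`: the automorphisms of `W` that map the set `S` of simple reflections onto itself. -/
def AutWS : Subgroup (MulAut W) where
  carrier := {θ | θ '' Set.range cs.simple = Set.range cs.simple}
  one_mem' := by
    show (1 : MulAut W) '' Set.range cs.simple = Set.range cs.simple
    ext x; simp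
  mul_mem' := by
    intro θ φ hθ hφ
    have hθ' : θ '' Set.range cs.simple = Set.range cs.simple := hθ
    have hφ' : φ '' Set.range cs.simple = Set.range cs.simple := hφ
    show (θ * φ) '' Set.range cs.simple = Set.range cs.simple
    have : ⇑(θ * φ) = θ ∘ φ := rfl
    rw [this, Set.image_comp, hφ', hθ']
  inv_mem' := by
    intro θ hθ
    have hθ' : θ '' Set.range cs.simple = Set.range cs.simple := hθ
    show (fun w => (θ⁻¹ : MulAut W) w) '' Set.range cs.simple = Set.range cs.simple
    conv_lhs => rw [← hθ']
    rw [← Set.image_comp]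
    have : (fun w => (θ⁻¹ : MulAut W) w) ∘ ⇑θ = id := by
      funext x; simp
    rw [this, Set.image_id]

/-- the extended group `W⁺ = W ⋊ Aut(W, S)`; its elements are pairs `wθ` (`left = w`,
`right = θ`), and `θ w θ⁻¹ = θ(w)`. -/
abbrev WPlus : Type _ := W ⋊[(AutWS cs).subtype] (AutWS cs)

variable {cs}

/-- the inclusion of `W` into `W⁺` -/
abbrev inc (w : W) : WPlus cs := SemidirectProduct.inl w

variable (cs)

/-- the length function on `W⁺`: `ℓ(wθ) = ℓ(w)` -/
noncomputable def lenP (x : WPlus cs) : ℕ := cs.length x.left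

/-- the Bruhat order on `W`: the reflexive transitive closure of `a → t a` for reflections `t`
with `ℓ(a) < ℓ(t a)` -/
def BrLe (x y : W) : Prop :=
  Relation.ReflTransGen
    (fun a b => ∃ t, cs.IsReflection t ∧ b = t * a ∧ cs.length a < cs.length b) x y

/-- the Bruhat order on `W⁺` -/
def BrLeP (x y : WPlus cs) : Prop := x.right = y.right ∧ BrLe cs x.left y.left

/-- the strict Bruhat order on `W⁺` -/
def BrLtP (x y : WPlus cs) : Prop := BrLeP cs x y ∧ x ≠ y

/-- the set `I⁺` of twisted involutions -/
def IPlus : Set (WPlus cs) := {x | x * x = 1}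

/-- `W`-conjugacy classes in `W⁺` -/
def IsWClass (K : Set (WPlus cs)) : Prop :=
  ∃ x : WPlus cs, K = {y | ∃ u : W, y = inc u * x * (inc u)⁻¹}

end Pool.Agent.X260.QP
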