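import Pool.Agent.X260.QP.Defs

set_option autoImplicit false

/-!
# Rains–Vazirani's conditions for a set of twisted involutions
-/

namespace Pool.Agent.X260.QP

variable {B : Type*} {M : CoxeterMatrix B} {W : Type*} [Group W] (cs : CoxeterSystem M W)

/-- (QP1): `ℓ(rwr) = ℓ(w)` implies `rwr = w`, for reflections `r` and `w ∈ K`. -/
def QP1 (K : Set (WPlus cs)) : Prop :=
  ∀ r : W, cs.IsReflection r → ∀ w ∈ K,
    lenP cs (inc r * w * inc r) = lenP cs w → inc r * w * inc r = w

/-- (QP2): `ℓ(rwr) > ℓ(w)` and `ℓ(srwrs) < ℓ(sws)` imply `rwr = sws`, for reflections `r`,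
simple reflections `s` and `w ∈ K`. -/
def QP2 (K : Set (WPlus cs)) : Prop :=
  ∀ r : W, cs.IsReflection r → ∀ w ∈ K, ∀ i : B,
    lenP cs w < lenP cs (inc r * w * inc r) →
    lenP cs (inc (cs.simple i) * inc r * w * inc r * inc (cs.simple i)) <
      lenP cs (inc (cs.simple i) * w * inc (cs.simple i)) →
    inc r * w * inc r = inc (cs.simple i) * w * inc (cs.simple i)

end Pool.Agent.X260.QP
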