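import Pool.Agent.X260.QP.Plane

set_option autoImplicit false

namespace Pool.Agent.X260.QP

open Pool.Agent.TH107 Pool.Agent.Helper741 CoxeterSystem Ext

variable {B : Type*} {M : CoxeterMatrix B} [Fintype B] [DecidableEq B]
variable {W : Type*} [Group W]
variable {cs : CoxeterSystem M W} {G : Type*} [Group G] {E : Ext cs G}
variable {P : Submodule ℝ (B → ℝ)} {a b : W}

lemma b_eq (hc : Can cs P a b) : (a * b) ^ (-1 : ℤ) * a = b := by
  rw [zpow_neg_one, mul_inv_rev, hc.ha.1.inv, hc.hb.1.inv, mul_assoc, hc.ha.1.mul_self, mul_one]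

/-- conjugation by `a` -/
lemma conj_a (hc : Can cs P a b) (m : ℤ) : a * ((a * b) ^ m * a) * a = (a * b) ^ (-m) * a := by
  rw [← mul_assoc, inv_conj_zpow hc.ha.1.mul_self hc.hb.1.mul_self, mul_assoc, mul_assoc,
    hc.ha.1.mul_self, mul_one]

/-- conjugation by `b` -/
lemma conj_b (hc : Can cs P a b) (m : ℤ) : b * ((a * b) ^ m * a) * b = (a * b) ^ (-m - 2) * a := by
  rw [← mul_assoc, inv_conj_zpow' hc.ha.1.mul_self hc.hb.1.mul_self]
  have h : b * a * b = (a * b) ^ (-2 : ℤ) * a := by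
    have h2 : (a * b) ^ (-2 : ℤ) = (a * b) ^ (-1 : ℤ) * (a * b) ^ (-1 : ℤ) := by
      rw [← zpow_add]; norm_num
    rw [h2, mul_assoc ((a * b) ^ (-1 : ℤ)), b_eq hc, zpow_neg_one, mul_inv_rev, hc.ha.1.inv,
      hc.hb.1.inv]
  calc (a * b) ^ (-m) * b * a * b = (a * b) ^ (-m) * (b * a * b) := by simp only [mul_assoc]
    _ = _ := by rw [h, ← mul_assoc, ← zpow_add]; congr 2

lemma zpow_a_mem (hc : Can cs P a b) (m : ℤ) : (a * b) ^ m * a ∈ RP cs P := by
  have h1 : ∀ m : ℤ, (a * b) ^ m * a ∈ RP cs P → (a * b) ^ (-m) * a ∈ RP cs P := by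
    intro m hm
    rw [← conj_a hc]
    exact RP_conj' hc.ha hm
  have h2 : ∀ m : ℤ, (a * b) ^ m * a ∈ RP cs P → (a * b) ^ (-m - 2) * a ∈ RP cs P := by
    intro m hm
    rw [← conj_b hc]
    exact RP_conj' hc.hb hm
  have h3 : ∀ m : ℤ, (a * b) ^ m * a ∈ RP cs P → (a * b) ^ (m + 2) * a ∈ RP cs P := by
    intro m hm
    have := h1 _ (h2 m hm)
    rwa [show -(-m - 2) = m + 2 by ring] at this
  have h0 : (a * b) ^ (0 : ℤ) * a ∈ RP cs P := by rw [zpow_zero, one_mul]; exact hc.ha
  have h1' : (a * b) ^ (1 : ℤ) * a ∈ RP cs P := by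
    apply h1 (-1)
    rw [b_eq hc]; exact hc.hb
  have hn : ∀ n : ℕ, (a * b) ^ (n : ℤ) * a ∈ RP cs P ∧ (a * b) ^ ((n : ℤ) + 1) * a ∈ RP cs P := by
    intro n
    induction n with
    | zero => exact ⟨by simpa using h0, by simpa using h1'⟩
    | succ n ih =>
      refine ⟨by have := ih.2; push_cast; exact this, ?_⟩
      have := h3 _ ih.1
      push_cast
      rwa [show (n : ℤ) + 1 + 1 = n + 2 by ring]
  rcases Int.eq_nat_or_neg m with ⟨n, rfl | rfl⟩
  · exact (hn n).1
  · exact h1 _ (hn n).1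

lemma RP_form_aux (hc : Can cs P a b) : ∀ (n : ℕ) (t : W), cs.length t = n → t ∈ RP cs P →
    ∃ m : ℤ, t = (a * b) ^ m * a := by
  intro n
  induction n using Nat.strong_induction_on with
  | _ n ih =>
  intro t hn ht
  by_cases hta : t = a
  · exact ⟨0, by rw [zpow_zero, one_mul]; exact hta⟩
  by_cases htb : t = b
  · exact ⟨-1, by rw [b_eq hc]; exact htb⟩
  have key : ∀ c ∈ RP cs P, t ≠ c → (∀ d ∈ RP cs P, d ≠ c → 0 ≤ geo cs c (rt cs d)) →
      geo cs t (rt cs c) ≤ 0 → cs.length (c * t * c) < n := by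
    intro c hcR htc hcan hneg
    have h1 := length_of_neg hcR.1 hneg
    have h2 : rt cs (t * c * t⁻¹) = - geo cs t (rt cs c) := rt_conj_neg hcR.1 t hneg
    have hd : t * c * t⁻¹ ∈ RP cs P := RP_conj ht hcR
    have hdc : t * c * t⁻¹ ≠ c := by
      intro h
      rw [h, geo_refl ht.1] at h2
      apply htc
      apply rt_inj ht.1 hcR.1
      symm
      apply (rt_PR hcR.1).eq_of_smul (rt_PR ht.1) (a := bil M (rt cs t) (rt cs c) / 2)
      have h3 : (2 : ℝ) • rt cs c = bil M (rt cs t) (rt cs c) • rt cs t := by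
        have h2' := congrArg (fun z => z + rt cs c) h2
        rw [two_smul]
        refine h2'.trans ?_
        module
      calc rt cs c = (1 / 2 : ℝ) • ((2 : ℝ) • rt cs c) := by module
        _ = _ := by rw [h3]; module
    have h3 := hcan _ hd hdc
    rw [h2, map_neg] at h3
    have h4 : geo cs (c * t) (rt cs c) ≤ 0 := by
      rw [← geo_geo]; exact neg_nonneg.mp h3
    have h5 := length_of_neg hcR.1 h4
    have h6 : cs.length (c * t) = cs.length (t * c) := by
      rw [← cs.length_inv (c * t), mul_inv_rev, hcR.1.inv, ht.1.inv]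
    omega
  by_cases hda : geo cs t (rt cs a) ≤ 0
  rotate_left
  · have hdb : geo cs t (rt cs b) ≤ 0 := by
      by_contra hcon
      have h1 := ((rt_isRt hc.ha.1).geo t).not_nonpos.mp hda
      have h2 := ((rt_isRt hc.hb.1).geo t).not_nonpos.mp hcon
      obtain ⟨x, y, hx, hy, e⟩ := hc.cone t ht
      have h3 : 0 ≤ geo cs t (rt cs t) := by
        rw [e, map_add, map_smul, map_smul]
        exact add_nonneg (smul_nonneg hx h1) (smul_nonneg hy h2)
      rw [geo_rt_self ht.1] at h3
      exact (rt_isRt ht.1).not_both (rt_pos ht.1) (neg_nonneg.mp h3)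
    obtain ⟨m, hm⟩ := ih _ (key b hc.hb htb hc.cb hdb) (b * t * b) rfl (RP_conj' hc.hb ht)
    refine ⟨-m - 2, ?_⟩
    rw [← conj_b hc, ← hm]
    calc t = (b * b) * t * (b * b) := by rw [hc.hb.1.mul_self]; group
      _ = _ := by group
  · obtain ⟨m, hm⟩ := ih _ (key a hc.ha hta hc.ca hda) (a * t * a) rfl (RP_conj' hc.ha ht)
    refine ⟨-m, ?_⟩
    rw [← conj_a hc, ← hm]
    calc t = (a * a) * t * (a * a) := by rw [hc.ha.1.mul_self]; group
      _ = _ := by group

lemma RP_form (hc : Can cs P a b) {t : W} (ht : t ∈ RP cs P) : ∃ m : ℤ, t = (a * b) ^ m * a :=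
  RP_form_aux hc _ t rfl ht

/-- elements acting trivially modulo `P` -/
def SP (cs : CoxeterSystem M W) (P : Submodule ℝ (B → ℝ)) : Subgroup W where
  carrier := {z | ∀ v, geo cs z v - v ∈ P}
  one_mem' := by intro v; simp
  mul_mem' := by
    intro z z' h h' v
    have e : geo cs (z * z') v - v = (geo cs z (geo cs z' v) - geo cs z' v) + (geo cs z' v - v) := by
      rw [geo_geo]; abel
    rw [e]
    exact P.add_mem (h _) (h' _)
  inv_mem' := by
    intro z h v
    have e : geo cs z⁻¹ v - v = -(geo cs z (geo cs z⁻¹ v) - geo cs z⁻¹ v) := by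
      rw [geo_apply_inv]; abel
    rw [e]
    exact P.neg_mem (h _)

lemma RP_SP {t : W} (h : t ∈ RP cs P) : t ∈ SP cs P := by
  intro v
  rw [geo_refl h.1]
  have : v - bil M (rt cs t) v • rt cs t - v = -(bil M (rt cs t) v • rt cs t) := by abel
  rw [this]
  exact P.neg_mem (P.smul_mem _ h.2)

lemma SP_mem {z : W} (h : z ∈ SP cs P) {v : B → ℝ} (hv : v ∈ P) : geo cs z v ∈ P := by
  have := P.add_mem (h v) hv
  rwa [sub_add_cancel] at this

lemma rot_SP (hc : Can cs P a b) (m : ℤ) : (a * b) ^ m ∈ SP cs P :=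
  (SP cs P).zpow_mem ((SP cs P).mul_mem (RP_SP hc.ha) (RP_SP hc.hb)) m

lemma SP_conj {z : W} (h : z ∈ SP cs P) {t : W} (ht : t ∈ RP cs P) : z * t * z⁻¹ ∈ RP cs P := by
  refine ⟨ht.1.conj z, ?_⟩
  rcases ((rt_isRt ht.1).geo z).cases with h1 | h1
  · rw [rt_conj_pos ht.1 z h1]; exact SP_mem h ht.2
  · rw [rt_conj_neg ht.1 z h1]; exact P.neg_mem (SP_mem h ht.2)

/-- an element preserving the plane with no negative root permutes the canonical generators -/
lemma perm_can (hc : Can cs P a b) {g : G} (h0 : nn E P g = 0)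
    (h1 : ∀ t ∈ RP cs P, E.cnj g t ∈ RP cs P)
    (h2 : ∀ t ∈ RP cs P, E.cnj g⁻¹ t ∈ RP cs P) : E.cnj g a = a ∨ E.cnj g a = b := by
  rw [nn_eq_zero_iff] at h0
  have hinv : ∀ t ∈ RP cs P, 0 ≤ E.A g⁻¹ (rt cs t) := by
    intro t ht
    apply pos_of_not ht.1
    intro hneg
    have h3 := cnj_eq_neg (E := E) ht.1 hneg
    have h4 := h0 _ (h2 t ht)
    rw [h3, map_neg, A_apply_inv] at h4
    exact (rt_isRt ht.1).not_both (rt_pos ht.1) (neg_nonneg.mp h4)
  have ea := cnj_eq_pos (E := E) hc.ha.1 (h0 a hc.ha)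
  obtain ⟨x, y, hx, hy, e⟩ := hc.cone _ (h1 a hc.ha)
  have e1 := cnj_eq_pos (E := E) hc.ha.1 (hinv a hc.ha)
  have e2 := cnj_eq_pos (E := E) hc.hb.1 (hinv b hc.hb)
  obtain ⟨x1, y1, hx1, hy1, f1⟩ := hc.cone _ (h2 a hc.ha)
  obtain ⟨x2, y2, hx2, hy2, f2⟩ := hc.cone _ (h2 b hc.hb)
  have h5 : rt cs a = x • (x1 • rt cs a + y1 • rt cs b) + y • (x2 • rt cs a + y2 • rt cs b) := by
    rw [← f1, ← f2, e1, e2, ← map_smul, ← map_smul, ← map_add, ← e, ea, A_inv_apply]
  have h6 := rt_indep (cs := cs) hc.ha.1 hc.hb.1 hc.hab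
    (x := x * x1 + y * x2 - 1) (y := x * y1 + y * y2) (by
      have : (x * x1 + y * x2 - 1) • rt cs a + (x * y1 + y * y2) • rt cs b =
        x • (x1 • rt cs a + y1 • rt cs b) + y • (x2 • rt cs a + y2 • rt cs b) - rt cs a := by module
      rw [this, ← h5, sub_self])
  have hy1' := mul_nonneg hx hy1
  have hy2' := mul_nonneg hy hy2
  by_cases hx0 : x = 0
  · right
    have hy0 : y ≠ 0 := by
      rintro rfl
      have := h6.1
      rw [hx0] at this; norm_num at this
    have hy20 : y2 = 0 := by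
      have : y * y2 = 0 := by linarith [h6.2]
      exact (mul_eq_zero.mp this).resolve_left hy0
    rw [hy20, zero_smul, add_zero] at f2
    have h7 : E.cnj g⁻¹ b = a := by
      apply rt_inj (E.refl _ _ hc.hb.1) hc.ha.1
      exact (rt_PR (E.refl _ _ hc.hb.1)).eq_of_smul (rt_PR hc.ha.1) f2
    rw [h7] at e2
    apply rt_inj (E.refl _ _ hc.ha.1) hc.hb.1
    rw [ea, e2, A_apply_inv]
  · left
    have hy10 : y1 = 0 := by
      have : x * y1 = 0 := by linarith [h6.2]
      exact (mul_eq_zero.mp this).resolve_left hx0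
    rw [hy10, zero_smul, add_zero] at f1
    have h7 : E.cnj g⁻¹ a = a := by
      apply rt_inj (E.refl _ _ hc.ha.1) hc.ha.1
      exact (rt_PR (E.refl _ _ hc.ha.1)).eq_of_smul (rt_PR hc.ha.1) f1
    rw [h7] at e1
    apply rt_inj (E.refl _ _ hc.ha.1) hc.ha.1
    rw [ea]
    conv_lhs => rw [e1]
    rw [A_apply_inv]

lemma cnj_ι (z t : W) : E.cnj (E.ι z) t = z * t * z⁻¹ := by
  apply E.inj
  rw [E.hcnj]; simp only [map_mul, map_inv]

lemma perm_rot (hc : Can cs P a b) {z : W} (hz : z ∈ SP cs P) (h0 : nn E P (E.ι z) = 0) :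
    z * a * z⁻¹ = a ∨ z * a * z⁻¹ = b := by
  have := perm_can (E := E) hc (g := E.ι z) h0 (by
    intro t ht; rw [cnj_ι]; exact SP_conj hz ht) (by
    intro t ht; rw [← map_inv, cnj_ι]; exact SP_conj ((SP cs P).inv_mem hz) ht)
  rwa [cnj_ι] at this

lemma conj_zpow_a (hc : Can cs P a b) (m : ℤ) :
    (a * b) ^ m * a * ((a * b) ^ m)⁻¹ = (a * b) ^ (2 * m) * a := by
  rw [← zpow_neg, mul_assoc, inv_conj_zpow hc.ha.1.mul_self hc.hb.1.mul_self, neg_neg,
    ← mul_assoc, ← zpow_add]
  congr 2; ring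

lemma rot_unique (hc : Can cs P a b) (m : ℤ) (h0 : nn E P (E.ι ((a * b) ^ m)) = 0) :
    (a * b) ^ m = 1 := by
  have hz := rot_SP hc m
  have h0' := (nn_eq_zero_iff (E := E) (E.ι ((a * b) ^ m))).mp h0
  have pa : 0 ≤ geo cs ((a * b) ^ m) (rt cs a) := by
    have := h0' a hc.ha; rwa [A_ι] at this
  have pb : 0 ≤ geo cs ((a * b) ^ m) (rt cs b) := by
    have := h0' b hc.hb; rwa [A_ι] at this
  have qa := rt_conj_pos hc.ha.1 _ pa
  have qb := rt_conj_pos hc.hb.1 _ pb
  have hbconj := perm_rot (E := E) hc.symm hz h0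
  rcases perm_rot (E := E) hc hz h0 with h1 | h1
  · -- fixes both
    have hb1 : (a * b) ^ m * b * ((a * b) ^ m)⁻¹ = b := by
      rcases hbconj with h | h
      · exact h
      · exfalso
        apply hc.hab
        have : (a * b) ^ m * a * ((a * b) ^ m)⁻¹ = (a * b) ^ m * b * ((a * b) ^ m)⁻¹ := by rw [h1, h]
        simpa using this
    rw [h1] at qa
    rw [hb1] at qb
    rw [conj_zpow_a hc] at h1
    have h2 : (a * b) ^ (2 * m) = 1 := by
      have := congrArg (fun z => z * a) h1
      simpa [mul_assoc, hc.ha.1.mul_self] using this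
    have h3 : (a * b) ^ m * (a * b) ^ m = 1 := by rw [← zpow_add, ← two_mul]; exact h2
    by_contra hne
    obtain ⟨i, hi⟩ := cs.exists_rightDescent_of_ne_one hne
    have h4 := geo_nonpos cs _ i hi
    set z := (a * b) ^ m with hzdef
    have h5 := hz (ee i)
    obtain ⟨x, y, hp⟩ := hc.span _ h5
    set p := geo cs z (ee i) - ee i with hpdef
    have h6 : geo cs z p = p := by
      rw [hp, map_add, map_smul, map_smul, ← qa, ← qb]
    have h7 : geo cs z (ee i) = ee i + p := by rw [hpdef]; abel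
    have h8 : geo cs z (geo cs z (ee i)) = ee i := by
      rw [geo_geo, h3, map_one, Module.End.one_apply]
    rw [h7, map_add, h7, h6] at h8
    have h9 : p = 0 := by
      have : (2 : ℝ) • p = 0 := by
        have := congrArg (fun v => v - ee i) h8
        simp only [sub_self] at this
        rw [two_smul, ← this]; abel
      exact (smul_eq_zero.mp this).resolve_left (by norm_num)
    rw [h7, h9, add_zero] at h4
    exact ee_ne_zero (B := B) i (le_antisymm h4 (ee_nonneg i))
  · exfalso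
    have hb1 : (a * b) ^ m * b * ((a * b) ^ m)⁻¹ = a := by
      rcases hbconj with h | h
      · exfalso
        apply hc.hab
        have : (a * b) ^ m * a * ((a * b) ^ m)⁻¹ = (a * b) ^ m * b * ((a * b) ^ m)⁻¹ := by rw [h1, h]
        simpa using this
      · exact h
    rw [h1] at qa
    rw [hb1] at qb
    rw [conj_zpow_a hc] at h1
    have h2 : (a * b) ^ (2 * m) = b * a := by
      have := congrArg (fun z => z * a) h1
      simpa [mul_assoc, hc.ha.1.mul_self] using this
    have h3 : geo cs (b * a) (rt cs a) = rt cs a := by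
      rw [← h2, two_mul, zpow_add, ← geo_geo, ← qa, ← qb]
    rw [← geo_geo, geo_rt_self hc.ha.1, map_neg] at h3
    have h4 := hc.cb a hc.ha hc.hab
    have h5 : rt cs a ≤ 0 := by rw [← h3]; exact neg_nonpos.mpr h4
    exact (rt_isRt hc.ha.1).not_both (rt_pos hc.ha.1) h5

/-- the dihedral group generated by `a`, `b` -/
def inD (a b z : W) : Prop := ∃ m : ℤ, z = (a * b) ^ m ∨ z = (a * b) ^ m * a

lemma coset_unique (hc : Can cs P a b) {g : G} {z : W} (hz : inD a b z) (h0 : nn E P g = 0)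
    (h1 : nn E P (g * E.ι z) = 0) : z = 1 := by
  obtain ⟨m, rfl | rfl⟩ := hz
  · apply rot_unique (E := E) hc
    rw [nn_eq_zero_iff] at h0 h1 ⊢
    intro t ht
    rw [A_ι]
    by_contra hneg
    have hneg' := ((rt_isRt ht.1).geo ((a * b) ^ m)).not_nonneg.mp hneg
    have h2 := rt_conj_neg ht.1 _ hneg'
    have h3 := h0 _ (SP_conj (rot_SP hc m) ht)
    have h4 := h1 t ht
    rw [h2, map_neg, ← A_mul_ι] at h3
    exact not_both ht.1 _ h4 (neg_nonneg.mp h3)
  · exfalso
    exact nn_ne (E := E) (g := g) (zpow_a_mem hc m) (by rw [h1, h0])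

/-- normal form in a coset -/
def AF (E : Ext cs G) (P : Submodule ℝ (B → ℝ)) (x y : W) (w0 : G) (k : ℕ) (g : G) : Prop :=
  nn E P w0 = 0 ∧ g = w0 * E.ι (alt x y k) ∧ ∀ i ≤ k, nn E P (w0 * E.ι (alt x y i)) = i

lemma exists_AF (hc : Can cs P a b) (k : ℕ) : ∀ g : G, nn E P g = k →
    ∃ w0, AF E P a b w0 k g ∨ AF E P b a w0 k g := by
  induction k with
  | zero =>
    intro g hg
    refine ⟨g, Or.inl ⟨hg, by simp, ?_⟩⟩
    intro i hi
    have : i = 0 := by omega
    subst this
    simpa using hg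
  | succ k ih =>
    intro g hg
    have step : ∀ c ∈ RP cs P, (c = a ∨ c = b) → nn E P (g * E.ι c) + 1 = nn E P g →
        ∃ w0, AF E P a b w0 (k + 1) g ∨ AF E P b a w0 (k + 1) g := by
      intro c hcR hcab hcn
      have hg' : nn E P (g * E.ι c) = k := by omega
      obtain ⟨w0, h⟩ := ih _ hg'
      have hgc : g = g * E.ι c * E.ι c := (mul_ι_ι hcR.1 g).symm
      rcases Nat.eq_zero_or_pos k with hk | hk
      · subst hk
        have hw : g * E.ι c = w0 ∧ nn E P w0 = 0 := by
          rcases h with h | h <;> exact ⟨by simpa using h.2.1, h.1⟩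
        have h2 : g = w0 * E.ι c := by rw [← hw.1]; exact hgc
        have h3 : ∀ d : W, ∀ i ≤ 0 + 1, nn E P (w0 * E.ι (alt c d i)) = i := by
          intro d i hi
          rcases Nat.eq_zero_or_pos i with hi0 | hi0
          · subst hi0; simpa using hw.2
          · have : i = 1 := by omega
            subst this
            rw [alt_one, ← h2]; exact hg
        refine ⟨w0, ?_⟩
        rcases hcab with rfl | rfl
        · left; exact ⟨hw.2, by simpa using h2, h3 _⟩
        · right; exact ⟨hw.2, by simpa using h2, h3 _⟩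
      · obtain ⟨k', rfl⟩ : ∃ k', k = k' + 1 := ⟨k - 1, by omega⟩
        refine ⟨w0, ?_⟩
        have fin : ∀ x y : W, (x = a ∧ y = b) ∨ (x = b ∧ y = a) → AF E P x y w0 (k' + 1) (g * E.ι c) →
            AF E P x y w0 (k' + 1 + 1) g := by
          intro x y hxy haf
          obtain ⟨q1, q2, q3⟩ := haf
          have hlast : c ≠ (if Even k' then x else y) := by
            intro hce
            have : g = w0 * E.ι (alt x y k') := by
              rw [hgc, q2, alt_succ', ← hce, map_mul, ← mul_assoc, mul_ι_ι hcR.1]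
            have h4 := q3 k' (by omega)
            rw [← this, hg] at h4
            omega
          have hnext : c = (if Even (k' + 1) then x else y) := by
            by_cases he : Even k'
            · simp only [Nat.even_add_one, he, not_true, if_false, if_true] at hlast ⊢
              rcases hxy with ⟨rfl, rfl⟩ | ⟨rfl, rfl⟩
              · exact hcab.resolve_left hlast
              · exact hcab.resolve_right hlast
            · simp only [Nat.even_add_one, he, not_false_eq_true, if_false, if_true] at hlast ⊢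
              rcases hxy with ⟨rfl, rfl⟩ | ⟨rfl, rfl⟩
              · exact hcab.resolve_right hlast
              · exact hcab.resolve_left hlast
          have hgform : g = w0 * E.ι (alt x y (k' + 1 + 1)) := by
            rw [alt_succ' x y (k' + 1), ← hnext, map_mul, ← mul_assoc, ← q2]
            exact hgc
          refine ⟨q1, hgform, ?_⟩
          intro i hi
          rcases Nat.lt_or_ge i (k' + 1 + 1) with h5 | h5
          · exact q3 i (by omega)
          · have : i = k' + 1 + 1 := by omega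
            subst this
            rw [← hgform, hg]
        rcases h with h | h
        · left; exact fin a b (Or.inl ⟨rfl, rfl⟩) h
        · right; exact fin b a (Or.inr ⟨rfl, rfl⟩) h
    rcases exists_desc (E := E) hc (g := g) (by omega) with h | h
    · exact step a hc.ha (Or.inl rfl) (nn_can hc h)
    · exact step b hc.hb (Or.inr rfl) (nn_can hc.symm h)

end Pool.Agent.X260.QP
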