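import Pool.Agent.X260.QP.Main
import Pool.Agent.X260.QP.Defs

set_option autoImplicit false

namespace Pool.Agent.X260.QP

open Pool.Agent.TH107 Pool.Agent.Helper741 CoxeterSystem Real

variable {B : Type*} {M : CoxeterMatrix B}

section order
variable [Fintype B] [DecidableEq B] {W : Type*} [Group W] (cs : CoxeterSystem M W)

/-- the order of `s_i s_j` is a multiple of `M i j` -/
lemma dvd_of_pow {i j : B} {k : ℕ} (h : (cs.simple i * cs.simple j) ^ k = 1) : M i j ∣ k := by
  by_cases hij : i = j
  · subst hij; rw [M.diagonal]; exact one_dvd _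
  have h1 : ((sg M i * sg M j) ^ k) (ee i) = ee i := by
    have h2 := congrArg (fun w => geo cs w (ee i)) h
    simpa [map_pow, map_mul] using h2
  rw [← prod_alt_eq_pow, prod_alt_ee, if_pos (even_two_mul k)] at h1
  have hi := congrFun h1 i
  have hj := congrFun h1 j
  simp only [ee, Pi.add_apply, Pi.smul_apply, Pi.single_apply, smul_eq_mul, if_true, mul_one, hij,
    if_false, mul_zero, add_zero, Ne.symm hij, zero_add] at hi hj
  by_cases h0 : M i j = 0
  · rw [cc_of_zero M h0, qs_of_one] at hj
    have : k = 0 := by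
      have : (2 * k : ℕ) = 0 := by exact_mod_cast hj
      omega
    rw [this]; exact dvd_zero _
  · have hs := sin_pos_of_ne M hij h0
    have hm : (M i j : ℝ) ≠ 0 := by exact_mod_cast h0
    have e1 := qs_sin (π / (M i j : ℝ)) (2 * k)
    have e2 := qs_sin (π / (M i j : ℝ)) (2 * k + 1)
    have hcc : cc M i j = cos (π / (M i j : ℝ)) := rfl
    rw [← hcc, hj, zero_mul] at e1
    rw [← hcc, hi, one_mul] at e2
    have e3 : ((2 * k + 1 : ℕ) : ℝ) * (π / (M i j : ℝ)) =
        ((2 * k : ℕ) : ℝ) * (π / (M i j : ℝ)) + π / (M i j : ℝ) := by push_cast; ring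
    rw [e3, sin_add, ← e1, zero_mul, zero_add] at e2
    have e4 : cos (((2 * k : ℕ) : ℝ) * (π / (M i j : ℝ))) = 1 := by
      have : (cos (((2 * k : ℕ) : ℝ) * (π / (M i j : ℝ))) - 1) * sin (π / (M i j : ℝ)) = 0 := by
        linarith
      have := (mul_eq_zero.mp this).resolve_right hs.ne'
      linarith
    rw [cos_eq_one_iff] at e4
    obtain ⟨n, hn⟩ := e4
    have e5 : (k : ℝ) = n * (M i j : ℝ) := by
      have hpi := pi_ne_zero
      field_simp at hn
      push_cast at hn
      nlinarith [hn]
    have e6 : (k : ℤ) = n * (M i j : ℤ) := by exact_mod_cast e5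
    exact Int.natCast_dvd_natCast.mp ⟨n, by rw [e6, mul_comm]⟩

end order

section auts
variable {W : Type*} [Group W] {cs : CoxeterSystem M W}

lemma aut_simple (θ : AutWS cs) (i : B) : ∃ j, cs.simple j = (θ : MulAut W) (cs.simple i) := by
  have h : (θ : MulAut W) '' Set.range cs.simple = Set.range cs.simple := θ.2
  have : (θ : MulAut W) (cs.simple i) ∈ Set.range cs.simple := by
    rw [← h]; exact ⟨_, ⟨i, rfl⟩, rfl⟩
  exact this

/-- the permutation of the index set induced by an automorphism -/
noncomputable def pm (θ : AutWS cs) (i : B) : B := (aut_simple θ i).choose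

lemma pm_spec (θ : AutWS cs) (i : B) : (θ : MulAut W) (cs.simple i) = cs.simple (pm θ i) :=
  (aut_simple θ i).choose_spec.symm

lemma aut_refl (θ : AutWS cs) {t : W} (ht : cs.IsReflection t) :
    cs.IsReflection ((θ : MulAut W) t) := by
  obtain ⟨w, i, rfl⟩ := ht
  exact ⟨(θ : MulAut W) w, pm θ i, by rw [map_mul, map_mul, map_inv, pm_spec]⟩

end auts

section fin
variable [Fintype B] [DecidableEq B] {W : Type*} [Group W] {cs : CoxeterSystem M W}

lemma pm_mul (θ φ : AutWS cs) (i : B) : pm (θ * φ) i = pm θ (pm φ i) := by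
  apply simple_injective cs
  rw [← pm_spec, ← pm_spec, ← pm_spec]; rfl

lemma pm_one (i : B) : pm (1 : AutWS cs) i = i := by
  apply simple_injective cs
  rw [← pm_spec]; rfl

lemma pm_inv_pm (θ : AutWS cs) (i : B) : pm θ⁻¹ (pm θ i) = i := by
  rw [← pm_mul, inv_mul_cancel, pm_one]

lemma pm_pm_inv (θ : AutWS cs) (i : B) : pm θ (pm θ⁻¹ i) = i := by
  rw [← pm_mul, mul_inv_cancel, pm_one]

lemma pm_dvd (θ : AutWS cs) (i j : B) : M (pm θ i) (pm θ j) ∣ M i j := by
  apply dvd_of_pow cs
  rw [← pm_spec, ← pm_spec, ← map_mul, ← map_pow, cs.simple_mul_simple_pow, map_one]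

lemma pm_M (θ : AutWS cs) (i j : B) : M (pm θ i) (pm θ j) = M i j := by
  apply Nat.dvd_antisymm (pm_dvd θ i j)
  have := pm_dvd θ⁻¹ (pm θ i) (pm θ j)
  rwa [pm_inv_pm, pm_inv_pm] at this

/-- the action on the geometric representation -/
noncomputable def Th (θ : AutWS cs) : (B → ℝ) →ₗ[ℝ] (B → ℝ) := LinearMap.funLeft ℝ ℝ (pm θ⁻¹)

lemma Th_apply (θ : AutWS cs) (v : B → ℝ) (i : B) : Th θ v i = v (pm θ⁻¹ i) := rfl

lemma Th_mul (θ φ : AutWS cs) (v : B → ℝ) : Th (θ * φ) v = Th θ (Th φ v) := by
  ext i
  rw [Th_apply, Th_apply, Th_apply, mul_inv_rev, pm_mul]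

lemma Th_one (v : B → ℝ) : Th (1 : AutWS cs) v = v := by
  ext i; rw [Th_apply, inv_one, pm_one]

lemma Th_nonneg (θ : AutWS cs) {v : B → ℝ} (h : 0 ≤ v) : 0 ≤ Th θ v := fun i => h (pm θ⁻¹ i)

lemma Th_ee (θ : AutWS cs) (i : B) : Th θ (ee i) = ee (pm θ i) := by
  ext j
  rw [Th_apply]
  by_cases h : j = pm θ i
  · subst h; rw [pm_inv_pm]; simp [ee]
  · have h' : pm θ⁻¹ j ≠ i := by
      rintro rfl; exact h (pm_pm_inv θ j).symm
    simp [ee, h, h']

lemma coroot_Th (θ : AutWS cs) (i : B) (v : B → ℝ) :
    coroot M (pm θ i) (Th θ v) = coroot M i v := by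
  rw [coroot_apply, coroot_apply]
  let e : B ≃ B := ⟨pm θ, pm θ⁻¹, pm_inv_pm θ, pm_pm_inv θ⟩
  rw [← Equiv.sum_comp e]
  apply Finset.sum_congr rfl
  intro j _
  have h1 : e j = pm θ j := rfl
  rw [h1, Th_apply, pm_inv_pm]
  have h2 : cc M (pm θ i) (pm θ j) = cc M i j := by unfold cc; rw [pm_M]
  rw [h2]

lemma Th_geo (θ : AutWS cs) (w : W) (v : B → ℝ) :
    geo cs ((θ : MulAut W) w) (Th θ v) = Th θ (geo cs w v) := by
  induction w using cs.simple_induction_left generalizing v with
  | one => simp
  | mul_simple_left w i ih =>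
    rw [map_mul, map_mul, map_mul, Module.End.mul_apply, Module.End.mul_apply, ih, pm_spec,
      geo_simple, geo_simple, sg_apply, sg_apply, coroot_Th, map_sub, map_smul, Th_ee]

lemma Th_rt (θ : AutWS cs) {t : W} (ht : cs.IsReflection t) :
    Th θ (rt cs t) = rt cs ((θ : MulAut W) t) := by
  apply PR.eq_rt_of_neg (cs := cs) _ (aut_refl θ ht)
  · rw [Th_geo, geo_rt_self ht, map_neg]
  · refine ⟨?_, Th_nonneg θ (rt_pos ht)⟩
    obtain ⟨w, i, h⟩ := rt_isRt ht
    exact ⟨(θ : MulAut W) w, pm θ i, by rw [← Th_ee, Th_geo, h]⟩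

/-- the action of `W⁺` -/
noncomputable def actP (g : WPlus cs) : Module.End ℝ (B → ℝ) := geo cs g.left ∘ₗ Th g.right

lemma actP_apply (g : WPlus cs) (v : B → ℝ) : actP g v = geo cs g.left (Th g.right v) := rfl

lemma left_mul_inc (g : WPlus cs) (t : W) :
    (g * inc t).left = g.left * ((g.right : MulAut W) t) := by
  simp [SemidirectProduct.mul_left]

lemma right_mul_inc (g : WPlus cs) (t : W) : (g * inc t).right = g.right := by
  simp [SemidirectProduct.mul_right]

/-- `W⁺` as an extension -/
noncomputable def extP (cs : CoxeterSystem M W) : Ext cs (WPlus cs) where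
  ι := SemidirectProduct.inl
  inj := SemidirectProduct.inl_injective
  A :=
    { toFun := actP
      map_one' := by
        apply LinearMap.ext; intro v
        rw [actP_apply, SemidirectProduct.one_left, SemidirectProduct.one_right, Th_one, map_one]
      map_mul' := by
        intro g h
        apply LinearMap.ext; intro v
        rw [Module.End.mul_apply, actP_apply, actP_apply, actP_apply, SemidirectProduct.mul_left,
          SemidirectProduct.mul_right, Th_mul, map_mul, Module.End.mul_apply]
        congr 1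
        exact Th_geo g.right h.left _ }
  len := lenP cs
  hA := by
    intro w
    apply LinearMap.ext; intro v
    show actP (SemidirectProduct.inl w) v = _
    rw [actP_apply, SemidirectProduct.left_inl, SemidirectProduct.right_inl, Th_one]
  cnj := fun g t => g.left * ((g.right : MulAut W) t) * g.left⁻¹
  hcnj := by
    intro g w
    apply SemidirectProduct.ext
    · simp [SemidirectProduct.mul_left, SemidirectProduct.inv_left]
    · simp
  refl := fun g t ht => (aut_refl g.right ht).conj g.left
  root := by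
    intro g t ht
    show actP g (rt cs t) = _ ∨ actP g (rt cs t) = _
    rw [actP_apply, Th_rt g.right ht]
    have ht' := aut_refl g.right ht
    rcases ((rt_isRt ht').geo g.left).cases with h | h
    · left; rw [rt_conj_pos ht' g.left h]
    · right; rw [rt_conj_neg ht' g.left h, neg_neg]
  len_lt := by
    intro g t ht h
    have h' : geo cs g.left (rt cs ((g.right : MulAut W) t)) ≤ 0 := by
      rw [← Th_rt g.right ht]; exact h
    have := length_of_neg (aut_refl g.right ht) h'
    rw [lenP, lenP]
    exact (left_mul_inc g t) ▸ this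
  len_simple := by
    intro g i
    have h : (g * inc (cs.simple i)).left = g.left * cs.simple (pm g.right i) := by
      rw [left_mul_inc, pm_spec]
    show cs.length (g * inc (cs.simple i)).left = _ ∨ cs.length (g * inc (cs.simple i)).left + 1 = _
    rw [h, lenP]
    exact cs.length_mul_simple g.left (pm g.right i)
  fin := by
    intro g
    apply Set.Finite.of_finite_image (f := fun t => rt cs ((g.right : MulAut W) t))
    · apply (inv_finite (cs := cs) g.left).subset
      rintro _ ⟨t, ⟨ht, h⟩, rfl⟩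
      refine ⟨rt_PR (aut_refl g.right ht), ?_⟩
      show geo cs g.left (rt cs ((g.right : MulAut W) t)) ≤ 0
      rw [← Th_rt g.right ht]; exact h
    · intro t ht t' ht' h
      have := rt_inj (aut_refl g.right ht.1) (aut_refl g.right ht'.1) h
      exact (g.right : MulAut W).injective this

lemma RB_Br {x y : WPlus cs} (h : RB (extP cs) x y) : BrLeP cs x y := by
  induction h with
  | refl => exact ⟨rfl, Relation.ReflTransGen.refl⟩
  | tail _ h2 ih =>
    obtain ⟨t, ht, e, h3⟩ := h2
    rename_i b c _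
    have el : c.left = b.left * ((b.right : MulAut W) t) := by rw [e]; exact left_mul_inc b t
    have er : c.right = b.right := by rw [e]; exact right_mul_inc b t
    refine ⟨ih.1.trans er.symm, ih.2.tail ⟨b.left * ((b.right : MulAut W) t) * b.left⁻¹,
      (aut_refl b.right ht).conj b.left, ?_, h3⟩⟩
    rw [el]; group

/-- finite rank version -/
theorem finite_rank (K : Set (WPlus cs))
    (hK : ∀ (g : W), ∀ w ∈ K, inc g * w * (inc g)⁻¹ ∈ K)
    (QP1 : ∀ r, cs.IsReflection r → ∀ w ∈ K, lenP cs (inc r * w * inc r) = lenP cs w →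
      inc r * w * inc r = w)
    {u : WPlus cs} (huK : u ∈ K) (huu : u * u = 1) {r : W} (hr : cs.IsReflection r)
    (hlt : lenP cs (inc r * u * inc r) < lenP cs u) : BrLeP cs (inc r * u * inc r) u :=
  RB_Br (strong_exchange (extP cs) K hK QP1 huK huu hr hlt)

end fin

end Pool.Agent.X260.QP
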