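import Pool.Agent.X260.QP.Std

set_option autoImplicit false

namespace Pool.Agent.X260.QP

open Pool.Agent.TH107 Pool.Agent.Helper741 CoxeterSystem Ext

variable {B : Type*} {M : CoxeterMatrix B} [Fintype B] [DecidableEq B]
variable {W : Type*} [Group W]
variable {cs : CoxeterSystem M W} {G : Type*} [Group G] {E : Ext cs G}
variable {P : Submodule ℝ (B → ℝ)} {a b : W}

/-- Bruhat order by right multiplications -/
def RB (E : Ext cs G) (x y : G) : Prop :=
  Relation.ReflTransGen (fun x y => ∃ t, cs.IsReflection t ∧ y = x * E.ι t ∧ E.len x < E.len y) x y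

lemma RB.len {x y : G} (h : RB E x y) : E.len x ≤ E.len y := by
  induction h with
  | refl => exact le_refl _
  | tail _ h2 ih =>
    obtain ⟨t, _, _, h3⟩ := h2
    exact ih.trans h3.le

section alg
variable (hc : Can cs P a b)
include hc

lemma a_rot (m : ℤ) : a * (a * b) ^ m = (a * b) ^ (-m) * a :=
  inv_conj_zpow hc.ha.1.mul_self hc.hb.1.mul_self m

lemma b_rot (m : ℤ) : b * (a * b) ^ m = (a * b) ^ (-m - 1) * a := by
  rw [inv_conj_zpow' hc.ha.1.mul_self hc.hb.1.mul_self]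
  have : (a * b) ^ (-m - 1) * a = (a * b) ^ (-m) * ((a * b) ^ (-1 : ℤ) * a) := by
    rw [← mul_assoc, ← zpow_add]; congr 2
  rw [this, b_eq hc]

lemma rr (m n : ℤ) : (a * b) ^ m * a * ((a * b) ^ n * a) = (a * b) ^ (m - n) := by
  calc (a * b) ^ m * a * ((a * b) ^ n * a) = (a * b) ^ m * (a * (a * b) ^ n) * a := by
        simp only [mul_assoc]
    _ = (a * b) ^ m * ((a * b) ^ (-n) * a) * a := by rw [a_rot hc]
    _ = (a * b) ^ m * (a * b) ^ (-n) * (a * a) := by simp only [mul_assoc]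
    _ = _ := by rw [hc.ha.1.mul_self, mul_one, ← zpow_add, sub_eq_add_neg]

lemma rot_r (m n : ℤ) : (a * b) ^ m * ((a * b) ^ n * a) = (a * b) ^ (m + n) * a := by
  rw [← mul_assoc, ← zpow_add]

lemma r_rot (m n : ℤ) : (a * b) ^ m * a * (a * b) ^ n = (a * b) ^ (m - n) * a := by
  rw [mul_assoc, a_rot hc, ← mul_assoc, ← zpow_add, sub_eq_add_neg]

lemma ba_pow (i : ℕ) : (b * a) ^ i = (a * b) ^ (-(i : ℤ)) := by
  have : b * a = (a * b)⁻¹ := by rw [mul_inv_rev, hc.ha.1.inv, hc.hb.1.inv]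
  rw [this, inv_pow, zpow_neg, zpow_natCast]

lemma alt_even_ab (i : ℕ) : alt a b (2 * i) = (a * b) ^ (i : ℤ) := by
  rw [alt_mul_two, zpow_natCast]

lemma alt_odd_ab (i : ℕ) : alt a b (2 * i + 1) = (a * b) ^ (i : ℤ) * a := by
  rw [alt_mul_two_add_one, zpow_natCast]

lemma alt_even_ba (i : ℕ) : alt b a (2 * i) = (a * b) ^ (-(i : ℤ)) := by
  rw [alt_mul_two, ba_pow hc]

lemma alt_odd_ba (i : ℕ) : alt b a (2 * i + 1) = (a * b) ^ (-(i : ℤ) - 1) * a := by
  rw [alt_mul_two_add_one, ba_pow hc]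
  have : (a * b) ^ (-(i : ℤ) - 1) * a = (a * b) ^ (-(i : ℤ)) * ((a * b) ^ (-1 : ℤ) * a) := by
    rw [← mul_assoc, ← zpow_add]; congr 2
  rw [this, b_eq hc]

end alg

/-- the dihedral subgroup -/
def DD (hc : Can cs P a b) : Subgroup W where
  carrier := {z | inD a b z}
  one_mem' := ⟨0, Or.inl (by simp)⟩
  mul_mem' := by
    rintro z z' ⟨m, rfl | rfl⟩ ⟨n, rfl | rfl⟩
    · exact ⟨m + n, Or.inl (zpow_add _ _ _).symm⟩
    · exact ⟨m + n, Or.inr (rot_r hc m n)⟩
    · exact ⟨m - n, Or.inr (r_rot hc m n)⟩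
    · exact ⟨m - n, Or.inl (rr hc m n)⟩
  inv_mem' := by
    rintro z ⟨m, rfl | rfl⟩
    · exact ⟨-m, Or.inl (zpow_neg _ _).symm⟩
    · exact ⟨m, Or.inr (zpow_a_mem hc m).1.inv⟩

lemma a_DD (hc : Can cs P a b) : a ∈ DD hc := ⟨0, Or.inr (by simp)⟩
lemma b_DD (hc : Can cs P a b) : b ∈ DD hc := ⟨-1, Or.inr (b_eq hc).symm⟩

lemma DD_SP (hc : Can cs P a b) {z : W} (hz : z ∈ DD hc) : z ∈ SP cs P := by
  obtain ⟨m, rfl | rfl⟩ := hz
  · exact rot_SP hc m
  · exact (SP cs P).mul_mem (rot_SP hc m) (RP_SP hc.ha)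

/-- chains in a coset -/
lemma chain_of_nn (hc : Can cs P a b) {g : G} {m : ℤ}
    (h : nn E P (g * E.ι ((a * b) ^ m)) < nn E P g) : RB E (g * E.ι ((a * b) ^ m)) g := by
  have main : ∀ c ∈ RP cs P, c * (a * b) ^ m ∈ RP cs P → E.A g (rt cs c) ≤ 0 →
      nn E P (g * E.ι c) + 1 = nn E P g → RB E (g * E.ι ((a * b) ^ m)) g := by
    intro c hcR ht hneg hn
    have e : g * E.ι c * E.ι (c * (a * b) ^ m) = g * E.ι ((a * b) ^ m) := by
      rw [map_mul, ← mul_assoc, mul_ι_ι hcR.1]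
    have h1 : nn E P (g * E.ι ((a * b) ^ m)) ≠ nn E P (g * E.ι c) := by
      rw [← e]; exact nn_ne ht
    have h2 : E.len (g * E.ι ((a * b) ^ m)) < E.len (g * E.ι c) := by
      rw [← e]
      apply len_lt_of_nn ht
      rw [e]; omega
    have h3 : E.len (g * E.ι c) < E.len g := E.len_lt g c hcR.1 hneg
    apply Relation.ReflTransGen.tail (b := g * E.ι c)
    · apply Relation.ReflTransGen.single
      refine ⟨_, ht.1, ?_, h2⟩
      rw [← e, mul_ι_ι ht.1]
    · exact ⟨c, hcR.1, (mul_ι_ι hcR.1 g).symm, h3⟩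
  rcases exists_desc (E := E) hc (g := g) (by omega) with h1 | h1
  · refine main a hc.ha ?_ h1 (nn_can hc h1)
    rw [a_rot hc]; exact zpow_a_mem hc _
  · refine main b hc.hb ?_ h1 (nn_can hc.symm h1)
    rw [b_rot hc]; exact zpow_a_mem hc _

/-- stabilising the plane -/
def Stab (E : Ext cs G) (P : Submodule ℝ (B → ℝ)) (g : G) : Prop := ∀ v ∈ P, E.A g v ∈ P

lemma Stab.mul {g h : G} (hg : Stab E P g) (hh : Stab E P h) : Stab E P (g * h) := by
  intro v hv; rw [A_mul]; exact hg _ (hh _ hv)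

lemma Stab.cnj {g : G} (hg : Stab E P g) {t : W} (ht : t ∈ RP cs P) : E.cnj g t ∈ RP cs P := by
  refine ⟨E.refl g t ht.1, ?_⟩
  rcases cases (E := E) ht.1 g with h | h
  · rw [← h.2]; exact hg _ ht.2
  · have := P.neg_mem (hg _ ht.2)
    rwa [h.2, neg_neg] at this

lemma stab_ι {z : W} (hz : z ∈ SP cs P) : Stab E P (E.ι z) := by
  intro v hv; rw [A_ι]; exact SP_mem hz hv

lemma nn_sq {w0 : G} (h0 : nn E P w0 = 0) (hs : Stab E P w0) : nn E P (w0 * w0) = 0 := by
  rw [nn_eq_zero_iff] at h0 ⊢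
  intro t ht
  rw [A_mul]
  have h1 := h0 t ht
  rw [← cnj_eq_pos (E := E) ht.1 h1]
  exact h0 _ (hs.cnj ht)

/-- the bad case forces finite odd order -/
lemma bad_case (hc : Can cs P a b) {u v w0 : G} {r : W} {k : ℕ} (huu : u * u = 1)
    (hr : r ∈ RP cs P) (hv : v = E.ι r * u * E.ι r) (hne : u ≠ v)
    (hu0 : u = w0 * E.ι (alt a b k)) (hv0 : v = w0 * E.ι (alt b a k))
    (h0 : nn E P w0 = 0) (hs : Stab E P w0) (hs' : Stab E P w0⁻¹) :
    ∃ N : ℕ, 0 < N ∧ (a * b) ^ N = 1 := by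
  have fin : ∀ j : ℤ, (a * b) ^ (2 * j + 1) = 1 → ∃ N : ℕ, 0 < N ∧ (a * b) ^ N = 1 := by
    intro j hj
    refine ⟨(2 * j + 1).natAbs, by omega, ?_⟩
    rcases Int.natAbs_eq (2 * j + 1) with h | h
    · rw [h, zpow_natCast] at hj; exact hj
    · rw [h, zpow_neg, zpow_natCast, inv_eq_one] at hj; exact hj
  obtain ⟨j, hj⟩ := RP_form hc hr
  have hsq := nn_sq h0 hs
  have pa := perm_can (E := E) hc h0 (fun t ht => hs.cnj ht) (fun t ht => hs'.cnj ht)
  have pb := perm_can (E := E) hc.symm h0 (fun t ht => hs.cnj ht) (fun t ht => hs'.cnj ht)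
  have hcom : ∀ t t' : W, E.cnj w0 t = t' → w0 * E.ι t = E.ι t' * w0 := by
    intro t t' h
    rw [← h, E.hcnj]; group
  have hnab : E.cnj w0 a ≠ E.cnj w0 b := by
    intro h
    apply hc.hab
    have := congrArg E.ι h
    rw [E.hcnj, E.hcnj] at this
    exact E.inj (by simpa using this)
  rcases pa with pa | pa
  · -- commuting case
    have pb : E.cnj w0 b = b := by
      rcases pb with h | h
      · exact h
      · exact absurd (pa.trans h.symm) hnab
    have ca := hcom _ _ pa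
    have cb := hcom _ _ pb
    have cab : w0 * E.ι (a * b) = E.ι (a * b) * w0 := by
      rw [map_mul, ← mul_assoc, ca, mul_assoc, cb, ← mul_assoc]
    have crot : ∀ m : ℤ, w0 * E.ι ((a * b) ^ m) = E.ι ((a * b) ^ m) * w0 := by
      intro m
      rw [map_zpow]
      exact (Commute.zpow_right (show Commute w0 (E.ι (a * b)) from cab) m)
    have cr : w0 * E.ι r = E.ι r * w0 := by
      rw [hj, map_mul, ← mul_assoc, crot, mul_assoc, ca, ← mul_assoc]
    have hyv : alt b a k = r * alt a b k * r := by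
      apply E.inj
      apply mul_left_cancel (a := w0)
      rw [← hv0, hv, hu0, map_mul, map_mul]
      rw [← mul_assoc (E.ι r), ← cr]
      simp only [mul_assoc]
    rcases Nat.even_or_odd' k with ⟨i, hk | hk⟩
    · exfalso
      rw [hk, alt_even_ab hc] at hu0
      rw [hk, alt_even_ba hc] at hv0
      have h1 : w0 * w0 = E.ι ((a * b) ^ (-(2 * (i : ℤ)))) := by
        have h2 : w0 * w0 * E.ι ((a * b) ^ (2 * (i : ℤ))) = 1 := by
          rw [two_mul, zpow_add, map_mul, ← huu, hu0]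
          have hcr := crot (i : ℤ)
          set R := E.ι ((a * b) ^ (i : ℤ)) with hR
          calc w0 * w0 * (R * R) = w0 * (w0 * R) * R := by simp only [mul_assoc]
            _ = w0 * (R * w0) * R := by rw [hcr]
            _ = _ := by simp only [mul_assoc]
        rw [eq_mul_inv_of_mul_eq h2, one_mul, ← map_inv, zpow_neg]
      rw [h1] at hsq
      have h3 := rot_unique (E := E) hc _ hsq
      apply hne
      rw [hu0, hv0]
      congr 2
      have h4 : (a * b) ^ (i : ℤ) = (a * b) ^ (-(i : ℤ)) * (a * b) ^ (2 * (i : ℤ)) := by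
        rw [← zpow_add]; congr 1; ring
      have h5 : (a * b) ^ (2 * (i : ℤ)) = 1 := by
        rw [zpow_neg, inv_eq_one] at h3; exact h3
      rw [h4, h5, mul_one]
    · rw [hk, alt_odd_ba hc, alt_odd_ab hc, hj, mul_assoc, rr hc, r_rot hc] at hyv
      have h1 : (a * b) ^ (-(i : ℤ) - 1) = (a * b) ^ (j - (i - j)) := mul_right_cancel hyv
      apply fin j
      have h2 : (a * b) ^ (2 * j + 1) = (a * b) ^ (j - (i - j)) * ((a * b) ^ (-(i : ℤ) - 1))⁻¹ := by
        rw [← zpow_neg, ← zpow_add]; congr 1; ring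
      rw [h2, h1, mul_inv_cancel]
  · -- swapping case
    have pb : E.cnj w0 b = a := by
      rcases pb with h | h
      · exact absurd (pa.trans h.symm) hnab
      · exact h
    have ca := hcom _ _ pa
    have cb := hcom _ _ pb
    have hinv : b * a = (a * b)⁻¹ := by rw [mul_inv_rev, hc.ha.1.inv, hc.hb.1.inv]
    have cab : w0 * E.ι (a * b) = E.ι (a * b)⁻¹ * w0 := by
      rw [← hinv, map_mul, map_mul, ← mul_assoc, ca, mul_assoc, cb, ← mul_assoc]
    have crot : ∀ m : ℤ, w0 * E.ι ((a * b) ^ m) = E.ι ((a * b) ^ (-m)) * w0 := by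
      intro m
      have h1 : w0 * E.ι (a * b) * w0⁻¹ = E.ι (a * b)⁻¹ := by rw [cab]; group
      have h2 : w0 * E.ι ((a * b) ^ m) * w0⁻¹ = E.ι ((a * b) ^ (-m)) := by
        rw [map_zpow, ← conj_zpow, h1, ← map_zpow, inv_zpow, zpow_neg]
      rw [← h2]; group
    have cref : ∀ m : ℤ, w0 * E.ι ((a * b) ^ m * a) = E.ι ((a * b) ^ (-m - 1) * a) * w0 := by
      intro m
      rw [map_mul, ← mul_assoc, crot, mul_assoc, ca, ← mul_assoc, ← map_mul]
      congr 2
      have : (a * b) ^ (-m - 1) * a = (a * b) ^ (-m) * ((a * b) ^ (-1 : ℤ) * a) := by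
        rw [← mul_assoc, ← zpow_add]; congr 2
      rw [this, b_eq hc]
    have cref' : ∀ m : ℤ, E.ι ((a * b) ^ m * a) * w0 = w0 * E.ι ((a * b) ^ (-m - 1) * a) := by
      intro m
      rw [cref]; congr 3; ring_nf
    have hyv : alt b a k = (a * b) ^ (-j - 1) * a * alt a b k * ((a * b) ^ j * a) := by
      apply E.inj
      apply mul_left_cancel (a := w0)
      rw [← hv0, hv, hu0, hj, map_mul E.ι ((a * b) ^ (-j - 1) * a * alt a b k),
        map_mul E.ι ((a * b) ^ (-j - 1) * a)]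
      have hcr := cref' j
      set R := E.ι ((a * b) ^ j * a) with hR
      set R' := E.ι ((a * b) ^ (-j - 1) * a) with hR'
      calc R * (w0 * E.ι (alt a b k)) * R = (R * w0) * E.ι (alt a b k) * R := by
            simp only [mul_assoc]
        _ = (w0 * R') * E.ι (alt a b k) * R := by rw [hcr]
        _ = _ := by simp only [mul_assoc]
    rcases Nat.even_or_odd' k with ⟨i, hk | hk⟩
    · rw [hk, alt_even_ba hc, alt_even_ab hc, r_rot hc, rr hc] at hyv
      apply fin j
      have h2 : (a * b) ^ (2 * j + 1) = (a * b) ^ (-(i : ℤ)) * ((a * b) ^ (-j - 1 - i - j))⁻¹ := by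
        rw [← zpow_neg, ← zpow_add]; congr 1; ring
      rw [h2, ← hyv, mul_inv_cancel]
    · exfalso
      rw [hk, alt_odd_ab hc] at hu0
      rw [hk, alt_odd_ba hc] at hv0
      have h1 : w0 * w0 = E.ι ((a * b) ^ (2 * (i : ℤ) + 1)) := by
        have h2 : w0 * w0 * E.ι ((a * b) ^ (-(2 * (i : ℤ) + 1))) = 1 := by
          have h3 : (a * b) ^ (-(2 * (i : ℤ) + 1)) = (a * b) ^ (-(i : ℤ) - 1) * a * ((a * b) ^ (i : ℤ) * a) := by
            rw [rr hc]; congr 1; ring
          rw [h3, map_mul E.ι ((a * b) ^ (-(i : ℤ) - 1) * a), ← huu, hu0]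
          have hcr := cref' (i : ℤ)
          set R := E.ι ((a * b) ^ (i : ℤ) * a) with hR
          set R' := E.ι ((a * b) ^ (-(i : ℤ) - 1) * a) with hR'
          calc w0 * w0 * (R' * R) = w0 * (w0 * R') * R := by simp only [mul_assoc]
            _ = w0 * (R * w0) * R := by rw [hcr]
            _ = _ := by simp only [mul_assoc]
        rw [eq_mul_inv_of_mul_eq h2, one_mul, ← map_inv, ← zpow_neg, neg_neg]
      rw [h1] at hsq
      have h3 := rot_unique (E := E) hc _ hsq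
      apply hne
      rw [hu0, hv0]
      congr 3
      have h4 : (a * b) ^ (i : ℤ) = (a * b) ^ (-(i : ℤ) - 1) * (a * b) ^ (2 * (i : ℤ) + 1) := by
        rw [← zpow_add]; congr 1; ring
      rw [h4, h3, mul_one]

/-- lengths after standardisation -/
lemma len_std (hc : Can cs P a b) {g : W} {i j : B} (hi : geo cs g (rt cs a) = ee i)
    (hj : geo cs g (rt cs b) = ee j) {w0 : G} (hs : Stab E P w0) {x y : W}
    (hxy : (x = a ∧ y = b) ∨ (x = b ∧ y = a)) (k : ℕ)
    (hk : ∀ l ≤ k, nn E P (w0 * E.ι (alt x y l)) = l) :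
    E.len (E.ι g * (w0 * E.ι (alt x y k)) * (E.ι g)⁻¹) = E.len (E.ι g * w0 * (E.ι g)⁻¹) + k := by
  induction k with
  | zero => simp
  | succ k ih =>
    have ih' := ih (fun l hl => hk l (by omega))
    set c := (if Even k then x else y) with hcdef
    have hcab : c = a ∨ c = b := by
      rw [hcdef]
      rcases hxy with ⟨rfl, rfl⟩ | ⟨rfl, rfl⟩ <;> split_ifs <;> simp
    have hcR : c ∈ RP cs P := by rcases hcab with h | h <;> rw [h]; exacts [hc.ha, hc.hb]
    obtain ⟨l, hl⟩ : ∃ l, geo cs g (rt cs c) = ee l := by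
      rcases hcab with h | h <;> rw [h]
      exacts [⟨i, hi⟩, ⟨j, hj⟩]
    have hsimple : g * c * g⁻¹ = cs.simple l := by
      apply rt_inj (hcR.1.conj g) (cs.isReflection_simple l)
      rw [rt_simple, rt_conj_pos hcR.1 g (by rw [hl]; exact ee_nonneg l), hl]
    set h := w0 * E.ι (alt x y k) with hh
    have hhs : Stab E P h := by
      apply hs.mul
      apply stab_ι
      rcases hxy with ⟨rfl, rfl⟩ | ⟨rfl, rfl⟩
      · exact alt_mem_subgroup (RP_SP hc.ha) (RP_SP hc.hb) k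
      · exact alt_mem_subgroup (RP_SP hc.hb) (RP_SP hc.ha) k
    have hnext : w0 * E.ι (alt x y (k + 1)) = h * E.ι c := by
      rw [alt_succ', map_mul, ← mul_assoc]
    have hpos : 0 ≤ E.A h (rt cs c) := by
      apply pos_of_not hcR.1
      intro hneg
      have h1 := nn_lt_of_neg (E := E) hcR hneg
      rw [← hnext, hk (k + 1) (le_refl _), hk k (by omega)] at h1
      omega
    have e : E.ι g * (w0 * E.ι (alt x y (k + 1))) * (E.ι g)⁻¹ =
        E.ι g * h * (E.ι g)⁻¹ * E.ι (cs.simple l) := by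
      rw [hnext, ← hsimple, map_mul, map_mul, map_inv]; group
    have hpos2 : 0 ≤ E.A (E.ι g * h * (E.ι g)⁻¹) (rt cs (cs.simple l)) := by
      have h2 : E.A (E.ι g)⁻¹ (rt cs (cs.simple l)) = rt cs c := by
        rw [rt_simple, ← hl, ← map_inv, A_ι, geo_inv_apply]
      rw [A_mul, h2, A_mul, ← cnj_eq_pos (E := E) hcR.1 hpos, A_ι]
      obtain ⟨x', y', hx', hy', e'⟩ := hc.cone _ (hhs.cnj hcR)
      rw [e', map_add, map_smul, map_smul, hi, hj]
      exact add_nonneg (smul_nonneg hx' (ee_nonneg i)) (smul_nonneg hy' (ee_nonneg j))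
    have h3 := len_gt (E := E) (cs.isReflection_simple l) hpos2
    have h4 := E.len_simple (E.ι g * h * (E.ι g)⁻¹) l
    rw [e]
    omega

/-- Strong exchange for classes satisfying (QP1), in an extension of finite rank. -/
theorem strong_exchange (E : Ext cs G) (K : Set G)
    (hK : ∀ (g : W), ∀ w ∈ K, E.ι g * w * (E.ι g)⁻¹ ∈ K)
    (QP1 : ∀ r, cs.IsReflection r → ∀ w ∈ K, E.len (E.ι r * w * E.ι r) = E.len w →
      E.ι r * w * E.ι r = w)
    {u : G} (huK : u ∈ K) (huu : u * u = 1) {r : W} (hr : cs.IsReflection r)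
    (hlt : E.len (E.ι r * u * E.ι r) < E.len u) : RB E (E.ι r * u * E.ι r) u := by
  classical
  set v := E.ι r * u * E.ι r with hv
  have hne : u ≠ v := by intro h; rw [← h] at hlt; exact lt_irrefl _ hlt
  have huinv : u⁻¹ = u := inv_eq_of_mul_eq_one_left huu
  set r' := E.cnj u r with hr'
  have hr'r : cs.IsReflection r' := E.refl u r hr
  have hιr' : E.ι r' = u * E.ι r * u := by rw [hr', E.hcnj, huinv]
  have hv' : v = u * E.ι (r' * r) := by
    rw [map_mul, hιr', hv]
    calc E.ι r * u * E.ι r = (u * u) * E.ι r * u * E.ι r := by rw [huu]; group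
      _ = _ := by group
  have hrr' : r ≠ r' := by
    intro h
    apply hne
    rw [hv', ← h, hr.mul_self, map_one, mul_one]
  obtain ⟨a, b, hc⟩ := exists_can (cs := cs) hr hr'r hrr'
  set P := Submodule.span ℝ {rt cs r, rt cs r'} with hP
  have hrP : r ∈ RP cs P := ⟨hr, Submodule.subset_span (by simp)⟩
  have hrP' : r' ∈ RP cs P := ⟨hr'r, Submodule.subset_span (by simp)⟩
  have hcnj2 : E.cnj u r' = r := by
    apply E.inj
    rw [E.hcnj, hιr', huinv]
    calc u * (u * E.ι r * u) * u = (u * u) * E.ι r * (u * u) := by group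
      _ = _ := by rw [huu]; group
  have hsu : Stab E P u := by
    intro x hx
    obtain ⟨p, q, rfl⟩ := Submodule.mem_span_pair.mp hx
    rw [map_add, map_smul, map_smul]
    apply P.add_mem
    · apply P.smul_mem
      rcases cases (E := E) hr u with h | h
      · rw [h.2]; exact hrP'.2
      · rw [h.2]; exact P.neg_mem hrP'.2
    · apply P.smul_mem
      rcases cases (E := E) hr'r u with h | h
      · rw [h.2, hcnj2]; exact hrP.2
      · rw [h.2, hcnj2]; exact P.neg_mem hrP.2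
  obtain ⟨m1, hm1⟩ := RP_form hc hrP'
  obtain ⟨m2, hm2⟩ := RP_form hc hrP
  have hrot : r' * r = (a * b) ^ (m1 - m2) := by rw [hm1, hm2, rr hc]
  rw [hrot] at hv'
  rcases lt_trichotomy (nn E P v) (nn E P u) with h | h | h
  · rw [hv'] at h ⊢
    exact chain_of_nn hc h
  · exfalso
    have hvu : v = u * E.ι ((a * b) ^ (m1 - m2)) := hv'
    obtain ⟨w0, hw0⟩ := exists_AF (E := E) hc _ u rfl
    obtain ⟨w1, hw1⟩ := exists_AF (E := E) hc _ v h
    have sinv : ∀ x y : W, ((x = a ∧ y = b) ∨ (x = b ∧ y = a)) → ∀ k, alt x y k ∈ DD hc := by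
      intro x y hxy k
      rcases hxy with ⟨rfl, rfl⟩ | ⟨rfl, rfl⟩
      · exact alt_mem_subgroup (a_DD hc) (b_DD hc) k
      · exact alt_mem_subgroup (b_DD hc) (a_DD hc) k
    have same : ∀ x y x' y' : W, ((x = a ∧ y = b) ∨ (x = b ∧ y = a)) →
        ((x' = a ∧ y' = b) ∨ (x' = b ∧ y' = a)) →
        AF E P x y w0 (nn E P u) u → AF E P x' y' w1 (nn E P u) v → w1 = w0 := by
      intro x y x' y' hxy hxy' h1 h2
      set z := alt x y (nn E P u) * (a * b) ^ (m1 - m2) * (alt x' y' (nn E P u))⁻¹ with hz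
      have hzD : z ∈ DD hc := by
        rw [hz]
        exact (DD hc).mul_mem ((DD hc).mul_mem (sinv x y hxy _)
          (show (a * b) ^ (m1 - m2) ∈ DD hc from ⟨m1 - m2, Or.inl rfl⟩))
          ((DD hc).inv_mem (sinv x' y' hxy' _))
      have e : w1 = w0 * E.ι z := by
        rw [hz, map_mul, map_mul, map_inv, ← mul_assoc, ← mul_assoc, ← h1.2.1, ← hvu]
        nth_rewrite 1 [h2.2.1]
        group
      have := coset_unique (E := E) hc hzD h1.1 (by rw [← e]; exact h2.1)
      rw [e, this, map_one, mul_one]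
    -- main contradiction
    have main : ∀ x y : W, Can cs P x y → ((x = a ∧ y = b) ∨ (x = b ∧ y = a)) →
        AF E P x y w0 (nn E P u) u → AF E P y x w0 (nn E P u) v → False := by
      intro x y hxy hxyab h1 h2
      have hyxab : (y = a ∧ x = b) ∨ (y = b ∧ x = a) := by
        rcases hxyab with ⟨h3, h4⟩ | ⟨h3, h4⟩
        · right; exact ⟨h4, h3⟩
        · left; exact ⟨h4, h3⟩
      have haltS : alt x y (nn E P u) ∈ SP cs P := DD_SP hc (sinv x y hxyab _)
      have hw0e : w0 = u * E.ι (alt x y (nn E P u))⁻¹ := by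
        rw [map_inv]; exact eq_mul_inv_of_mul_eq h1.2.1.symm
      have hs0 : Stab E P w0 := by
        rw [hw0e]; exact hsu.mul (stab_ι ((SP cs P).inv_mem haltS))
      have hs0' : Stab E P w0⁻¹ := by
        rw [hw0e, mul_inv_rev, huinv, ← map_inv, inv_inv]
        exact (stab_ι haltS).mul hsu
      obtain ⟨N, hN0, hN⟩ := bad_case (E := E) hxy huu hrP hv hne h1.2.1 h2.2.1 h1.1 hs0 hs0'
      obtain ⟨g, i, j, hi, hj⟩ := standardize E hxy hN0 hN
      have l1 := len_std (E := E) hxy hi hj hs0 (Or.inl ⟨rfl, rfl⟩) _ h1.2.2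
      have l2 := len_std (E := E) hxy hi hj hs0 (Or.inr ⟨rfl, rfl⟩) _ h2.2.2
      rw [← h1.2.1] at l1
      rw [← h2.2.1] at l2
      have e : E.ι (g * r * g⁻¹) * (E.ι g * u * (E.ι g)⁻¹) * E.ι (g * r * g⁻¹) =
          E.ι g * v * (E.ι g)⁻¹ := by
        rw [hv]; simp only [map_mul, map_inv]; group
      have h3 := QP1 (g * r * g⁻¹) (hr.conj g) _ (hK g u huK) (by rw [e, l1, l2])
      rw [e] at h3
      apply hne
      have h4 : E.ι g * v = E.ι g * u := mul_right_cancel h3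
      exact (mul_left_cancel h4).symm
    rcases hw0 with hw0 | hw0 <;> rcases hw1 with hw1 | hw1
    · have := same a b a b (Or.inl ⟨rfl, rfl⟩) (Or.inl ⟨rfl, rfl⟩) hw0 hw1
      apply hne
      rw [hw0.2.1, hw1.2.1, this]
    · have := same a b b a (Or.inl ⟨rfl, rfl⟩) (Or.inr ⟨rfl, rfl⟩) hw0 hw1
      rw [this] at hw1
      exact main a b hc (Or.inl ⟨rfl, rfl⟩) hw0 hw1
    · have := same b a a b (Or.inr ⟨rfl, rfl⟩) (Or.inl ⟨rfl, rfl⟩) hw0 hw1
      rw [this] at hw1
      exact main b a hc.symm (Or.inr ⟨rfl, rfl⟩) hw0 hw1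
    · have := same b a b a (Or.inr ⟨rfl, rfl⟩) (Or.inr ⟨rfl, rfl⟩) hw0 hw1
      apply hne
      rw [hw0.2.1, hw1.2.1, this]
  · exfalso
    have hu' : u = v * E.ι ((a * b) ^ (m2 - m1)) := by
      rw [hv', mul_assoc, ← map_mul, ← zpow_add, show m1 - m2 + (m2 - m1) = 0 by ring, zpow_zero,
        map_one, mul_one]
    rw [hu'] at h
    have h1 := (chain_of_nn (E := E) hc h).len
    rw [← hu'] at h1
    omega

end Pool.Agent.X260.QP
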