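import Pool.Agent.TH107.Canon

set_option autoImplicit false

namespace Pool.Agent.X260.QP

open Pool.Agent.TH107 Pool.Agent.Helper741 CoxeterSystem

variable {B : Type*} {M : CoxeterMatrix B} [Fintype B] [DecidableEq B]
variable {W : Type*} [Group W]

/-- an extension of a Coxeter group acting on the geometric representation -/
structure Ext (cs : CoxeterSystem M W) (G : Type*) [Group G] where
  ι : W →* G
  inj : Function.Injective ι
  A : G →* Module.End ℝ (B → ℝ)
  len : G → ℕ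
  hA : ∀ w, A (ι w) = geo cs w
  cnj : G → W → W
  hcnj : ∀ g w, ι (cnj g w) = g * ι w * g⁻¹
  refl : ∀ g t, cs.IsReflection t → cs.IsReflection (cnj g t)
  root : ∀ g t, cs.IsReflection t →
    A g (rt cs t) = rt cs (cnj g t) ∨ A g (rt cs t) = - rt cs (cnj g t)
  len_lt : ∀ g t, cs.IsReflection t → A g (rt cs t) ≤ 0 → len (g * ι t) < len g
  len_simple : ∀ g i, len (g * ι (cs.simple i)) = len g + 1 ∨
    len (g * ι (cs.simple i)) + 1 = len g
  fin : ∀ g, {t | cs.IsReflection t ∧ A g (rt cs t) ≤ 0}.Finite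

variable {cs : CoxeterSystem M W} {G : Type*} [Group G] (E : Ext cs G)

namespace Ext

variable {E}

lemma A_mul (g h : G) (v : B → ℝ) : E.A (g * h) v = E.A g (E.A h v) := by
  rw [map_mul, Module.End.mul_apply]

lemma A_ι (w : W) (v : B → ℝ) : E.A (E.ι w) v = geo cs w v := by rw [E.hA]

lemma A_mul_ι (g : G) (w : W) (v : B → ℝ) : E.A (g * E.ι w) v = E.A g (geo cs w v) := by
  rw [A_mul, A_ι]

lemma A_mul_refl {t : W} (ht : cs.IsReflection t) (g : G) :
    E.A (g * E.ι t) (rt cs t) = - E.A g (rt cs t) := by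
  rw [A_mul_ι, geo_rt_self ht, map_neg]

lemma ι_sq {t : W} (ht : cs.IsReflection t) : E.ι t * E.ι t = 1 := by
  rw [← map_mul, ht.mul_self, map_one]

lemma mul_ι_ι {t : W} (ht : cs.IsReflection t) (g : G) : g * E.ι t * E.ι t = g := by
  rw [mul_assoc, ι_sq ht, mul_one]

lemma A_inv_apply (g : G) (v : B → ℝ) : E.A g⁻¹ (E.A g v) = v := by
  rw [← A_mul, inv_mul_cancel, map_one, Module.End.one_apply]

lemma A_apply_inv (g : G) (v : B → ℝ) : E.A g (E.A g⁻¹ v) = v := by
  rw [← A_mul, mul_inv_cancel, map_one, Module.End.one_apply]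

lemma cases {t : W} (ht : cs.IsReflection t) (g : G) :
    (0 ≤ E.A g (rt cs t) ∧ E.A g (rt cs t) = rt cs (E.cnj g t)) ∨
    (E.A g (rt cs t) ≤ 0 ∧ E.A g (rt cs t) = - rt cs (E.cnj g t)) := by
  rcases E.root g t ht with h | h
  · left; exact ⟨by rw [h]; exact rt_pos (E.refl g t ht), h⟩
  · right; exact ⟨by rw [h]; exact neg_nonpos.mpr (rt_pos (E.refl g t ht)), h⟩

lemma not_both {t : W} (ht : cs.IsReflection t) (g : G) (h1 : 0 ≤ E.A g (rt cs t))
    (h2 : E.A g (rt cs t) ≤ 0) : False := by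
  have h3 : E.A g (rt cs t) = 0 := le_antisymm h2 h1
  apply (rt_isRt ht).ne_zero
  rw [← A_inv_apply (E := E) g (rt cs t), h3, map_zero]

lemma pos_of_not {t : W} (ht : cs.IsReflection t) {g : G} (h : ¬ E.A g (rt cs t) ≤ 0) :
    0 ≤ E.A g (rt cs t) := by
  rcases cases ht g with h1 | h1
  · exact h1.1
  · exact absurd h1.1 h

lemma neg_of_not {t : W} (ht : cs.IsReflection t) {g : G} (h : ¬ 0 ≤ E.A g (rt cs t)) :
    E.A g (rt cs t) ≤ 0 := by
  rcases cases ht g with h1 | h1
  · exact absurd h1.1 h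
  · exact h1.1

lemma cnj_eq_pos {t : W} (ht : cs.IsReflection t) {g : G} (h : 0 ≤ E.A g (rt cs t)) :
    rt cs (E.cnj g t) = E.A g (rt cs t) := by
  rcases cases ht g with h1 | h1
  · exact h1.2.symm
  · exact (not_both ht g h h1.1).elim

lemma cnj_eq_neg {t : W} (ht : cs.IsReflection t) {g : G} (h : E.A g (rt cs t) ≤ 0) :
    rt cs (E.cnj g t) = - E.A g (rt cs t) := by
  rcases cases ht g with h1 | h1
  · exact (not_both ht g h1.1 h).elim
  · rw [h1.2, neg_neg]

lemma len_gt {t : W} (ht : cs.IsReflection t) {g : G} (h : 0 ≤ E.A g (rt cs t)) :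
    E.len g < E.len (g * E.ι t) := by
  have h1 := E.len_lt (g * E.ι t) t ht (by rw [A_mul_refl ht]; exact neg_nonpos.mpr h)
  rwa [mul_ι_ι ht] at h1

end Ext

open Ext

/-- the reflections whose root lies in `P` -/
def RP (cs : CoxeterSystem M W) (P : Submodule ℝ (B → ℝ)) : Set W :=
  {t | cs.IsReflection t ∧ rt cs t ∈ P}

variable {P : Submodule ℝ (B → ℝ)}

lemma RP_refl {t : W} (h : t ∈ RP cs P) : cs.IsReflection t := h.1

lemma RP_geo_mem {t : W} (h : t ∈ RP cs P) {v : B → ℝ} (hv : v ∈ P) : geo cs t v ∈ P := by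
  rw [geo_refl h.1]
  exact P.sub_mem hv (P.smul_mem _ h.2)

lemma RP_conj {t t' : W} (h : t ∈ RP cs P) (h' : t' ∈ RP cs P) : t * t' * t⁻¹ ∈ RP cs P := by
  refine ⟨h'.1.conj t, ?_⟩
  rcases ((rt_isRt h'.1).geo t).cases with h1 | h1
  · rw [rt_conj_pos h'.1 t h1]; exact RP_geo_mem h h'.2
  · rw [rt_conj_neg h'.1 t h1]; exact P.neg_mem (RP_geo_mem h h'.2)

lemma RP_conj' {t t' : W} (h : t ∈ RP cs P) (h' : t' ∈ RP cs P) : t * t' * t ∈ RP cs P := by
  have := RP_conj h h'
  rwa [h.1.inv] at this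

/-- canonical generators of a plane -/
structure Can (cs : CoxeterSystem M W) (P : Submodule ℝ (B → ℝ)) (a b : W) : Prop where
  ha : a ∈ RP cs P
  hb : b ∈ RP cs P
  hab : a ≠ b
  ca : ∀ t ∈ RP cs P, t ≠ a → 0 ≤ geo cs a (rt cs t)
  cb : ∀ t ∈ RP cs P, t ≠ b → 0 ≤ geo cs b (rt cs t)
  span : ∀ v ∈ P, ∃ x y : ℝ, v = x • rt cs a + y • rt cs b
  cone : ∀ t ∈ RP cs P, ∃ x y : ℝ, 0 ≤ x ∧ 0 ≤ y ∧ rt cs t = x • rt cs a + y • rt cs b

lemma Can.symm {a b : W} (h : Can cs P a b) : Can cs P b a where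
  ha := h.hb
  hb := h.ha
  hab := h.hab.symm
  ca := h.cb
  cb := h.ca
  span := fun v hv => by
    obtain ⟨x, y, e⟩ := h.span v hv
    exact ⟨y, x, by rw [e, add_comm]⟩
  cone := fun t ht => by
    obtain ⟨x, y, hx, hy, e⟩ := h.cone t ht
    exact ⟨y, x, hy, hx, by rw [e, add_comm]⟩

lemma rt_indep {a b : W} (ha : cs.IsReflection a) (hb : cs.IsReflection b) (hab : a ≠ b)
    {x y : ℝ} (h : x • rt cs a + y • rt cs b = 0) : x = 0 ∧ y = 0 := by
  have hx : x = 0 := by
    by_contra hx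
    apply hab
    apply rt_inj ha hb
    apply (rt_PR ha).eq_of_smul (rt_PR hb) (a := - y / x)
    have h1 : x • rt cs a = - y • rt cs b := by
      rw [neg_smul]; exact eq_neg_of_add_eq_zero_left h
    calc rt cs a = x⁻¹ • (x • rt cs a) := by rw [smul_smul, inv_mul_cancel₀ hx, one_smul]
      _ = _ := by rw [h1, smul_smul]; congr 1; ring
  refine ⟨hx, ?_⟩
  rw [hx, zero_smul, zero_add] at h
  by_contra hy
  exact (rt_isRt hb).ne_zero ((smul_eq_zero.mp h).resolve_left hy)

lemma exists_can {r r' : W} (hr : cs.IsReflection r) (hr' : cs.IsReflection r') (hne : r ≠ r') :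
    ∃ a b, Can cs (Submodule.span ℝ {rt cs r, rt cs r'}) a b := by
  classical
  set P : Submodule ℝ (B → ℝ) := Submodule.span ℝ {rt cs r, rt cs r'} with hP
  set R : Set W := RP cs P with hRdef
  have hrR : r ∈ R := ⟨hr, Submodule.subset_span (by simp)⟩
  have hrR' : r' ∈ R := ⟨hr', Submodule.subset_span (by simp)⟩
  have hR : ∀ u ∈ R, cs.IsReflection u := fun u hu => hu.1
  have hconj : ∀ u ∈ R, ∀ u' ∈ R, u * u' * u⁻¹ ∈ R := fun u hu u' hu' => RP_conj hu hu'
  obtain ⟨a, haR, hamin⟩ : ∃ a ∈ R, ∀ u ∈ R, cs.length a ≤ cs.length u := by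
    obtain ⟨a, ha, hmin⟩ := WellFounded.has_min (measure cs.length).wf R ⟨r, hrR⟩
    exact ⟨a, ha, fun u hu => not_lt.mp (hmin u hu)⟩
  obtain ⟨b, ⟨hbR, hba⟩, hbmin⟩ : ∃ b ∈ R \ {a}, ∀ u ∈ R \ {a}, cs.length b ≤ cs.length u := by
    have hne2 : (R \ {a}).Nonempty := by
      by_cases h : r = a
      · exact ⟨r', hrR', by rw [← h]; exact hne.symm⟩
      · exact ⟨r, hrR, h⟩
    obtain ⟨b, hb, hmin⟩ := WellFounded.has_min (measure cs.length).wf _ hne2
    exact ⟨b, hb, fun u hu => not_lt.mp (hmin u hu)⟩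
  have hba : b ≠ a := hba
  have hbmin' : ∀ u ∈ R, u ≠ a → cs.length b ≤ cs.length u := fun u hu hua => hbmin u ⟨hu, hua⟩
  have ca := min_canon hR hconj haR hamin
  have cb := snd_canon hR hconj haR hamin hbR hba hbmin'
  obtain ⟨a0, a1, hae⟩ := Submodule.mem_span_pair.mp haR.2
  obtain ⟨b0, b1, hbe⟩ := Submodule.mem_span_pair.mp hbR.2
  have hdet : a0 * b1 - a1 * b0 ≠ 0 := by
    intro h0
    have h1 : b0 • rt cs a + (-a0) • rt cs b = 0 := by
      rw [← hae, ← hbe]
      have : b0 • (a0 • rt cs r + a1 • rt cs r') + -a0 • (b0 • rt cs r + b1 • rt cs r')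
        = -(a0 * b1 - a1 * b0) • rt cs r' := by module
      rw [this, h0]; simp
    have h2 : b1 • rt cs a + (-a1) • rt cs b = 0 := by
      rw [← hae, ← hbe]
      have : b1 • (a0 • rt cs r + a1 • rt cs r') + -a1 • (b0 • rt cs r + b1 • rt cs r')
        = (a0 * b1 - a1 * b0) • rt cs r := by module
      rw [this, h0]; simp
    have h3 := rt_indep haR.1 hbR.1 hba.symm h1
    have h4 := rt_indep haR.1 hbR.1 hba.symm h2
    have ha0 : a0 = 0 := by linarith [h3.2]
    have ha1 : a1 = 0 := by linarith [h4.2]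
    apply (rt_isRt haR.1).ne_zero
    rw [← hae, ha0, ha1]; simp
  have hspan : ∀ v ∈ P, ∃ x y : ℝ, v = x • rt cs a + y • rt cs b := by
    intro v hv
    obtain ⟨v0, v1, hve⟩ := Submodule.mem_span_pair.mp hv
    refine ⟨(v0 * b1 - v1 * b0) / (a0 * b1 - a1 * b0), (a0 * v1 - a1 * v0) / (a0 * b1 - a1 * b0), ?_⟩
    rw [← hae, ← hbe, ← hve, smul_add, smul_add, smul_smul, smul_smul, smul_smul, smul_smul]
    have e1 : (v0 * b1 - v1 * b0) / (a0 * b1 - a1 * b0) * a0 +
        (a0 * v1 - a1 * v0) / (a0 * b1 - a1 * b0) * b0 = v0 := by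
      rw [div_mul_eq_mul_div, div_mul_eq_mul_div, ← add_div, div_eq_iff hdet]; ring
    have e2 : (v0 * b1 - v1 * b0) / (a0 * b1 - a1 * b0) * a1 +
        (a0 * v1 - a1 * v0) / (a0 * b1 - a1 * b0) * b1 = v1 := by
      rw [div_mul_eq_mul_div, div_mul_eq_mul_div, ← add_div, div_eq_iff hdet]; ring
    calc v0 • rt cs r + v1 • rt cs r' = ((v0 * b1 - v1 * b0) / (a0 * b1 - a1 * b0) * a0 +
        (a0 * v1 - a1 * v0) / (a0 * b1 - a1 * b0) * b0) • rt cs r +
        ((v0 * b1 - v1 * b0) / (a0 * b1 - a1 * b0) * a1 +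
        (a0 * v1 - a1 * v0) / (a0 * b1 - a1 * b0) * b1) • rt cs r' := by rw [e1, e2]
      _ = _ := by module
  refine ⟨a, b, haR, hbR, hba.symm, ca, cb, hspan, ?_⟩
  intro t ht
  obtain ⟨x, y, hxy⟩ := hspan _ ht.2
  by_cases hta : t = a
  · exact ⟨1, 0, zero_le_one, le_refl _, by rw [hta]; simp⟩
  by_cases htb : t = b
  · exact ⟨0, 1, le_refl _, zero_le_one, by rw [htb]; simp⟩
  have gba : 0 ≤ geo cs b (rt cs a) := cb a haR (Ne.symm hba)
  have gbt : 0 ≤ geo cs b (rt cs t) := cb t ht htb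
  have gab : 0 ≤ geo cs a (rt cs b) := ca b hbR hba
  have gat : 0 ≤ geo cs a (rt cs t) := ca t ht hta
  refine ⟨x, y, ?_, ?_, hxy⟩
  · by_contra hx0
    push Not at hx0
    have h1 := congrArg (geo cs b) hxy
    rw [map_add, map_smul, map_smul, geo_rt_self hbR.1] at h1
    have h2 : y • rt cs b ≤ 0 := by
      have h3 : y • rt cs b = x • geo cs b (rt cs a) - geo cs b (rt cs t) := by
        rw [h1]; module
      rw [h3]
      have h4 : x • geo cs b (rt cs a) ≤ 0 := smul_nonpos_of_nonpos_of_nonneg hx0.le gba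
      exact sub_nonpos_of_le (h4.trans gbt)
    have h5 : rt cs t ≤ 0 := by
      rw [hxy]
      have h4 : x • rt cs a ≤ 0 := smul_nonpos_of_nonpos_of_nonneg hx0.le (rt_pos haR.1)
      exact add_nonpos h4 h2
    exact (rt_isRt ht.1).not_both (rt_pos ht.1) h5
  · by_contra hy0
    push Not at hy0
    have h1 := congrArg (geo cs a) hxy
    rw [map_add, map_smul, map_smul, geo_rt_self haR.1] at h1
    have h2 : x • rt cs a ≤ 0 := by
      have h3 : x • rt cs a = y • geo cs a (rt cs b) - geo cs a (rt cs t) := by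
        rw [h1]; module
      rw [h3]
      have h4 : y • geo cs a (rt cs b) ≤ 0 := smul_nonpos_of_nonpos_of_nonneg hy0.le gab
      exact sub_nonpos_of_le (h4.trans gat)
    have h5 : rt cs t ≤ 0 := by
      rw [hxy]
      have h4 : y • rt cs b ≤ 0 := smul_nonpos_of_nonpos_of_nonneg hy0.le (rt_pos hbR.1)
      exact add_nonpos h2 h4
    exact (rt_isRt ht.1).not_both (rt_pos ht.1) h5

/-! ### counting negative roots of the plane -/

/-- reflections in `P` whose root is made negative -/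
def ng (E : Ext cs G) (P : Submodule ℝ (B → ℝ)) (g : G) : Set W :=
  {t | t ∈ RP cs P ∧ E.A g (rt cs t) ≤ 0}

lemma ng_finite (g : G) : (ng E P g).Finite :=
  (E.fin g).subset fun _ ht => ⟨ht.1.1, ht.2⟩

/-- the number of negative roots -/
noncomputable def nn (E : Ext cs G) (P : Submodule ℝ (B → ℝ)) (g : G) : ℕ := (ng E P g).ncard

lemma nn_eq_zero_iff (g : G) : nn E P g = 0 ↔ ∀ t ∈ RP cs P, 0 ≤ E.A g (rt cs t) := by
  rw [nn, Set.ncard_eq_zero (ng_finite E g)]
  constructor
  · intro h t ht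
    apply pos_of_not ht.1
    intro h1
    have : t ∈ ng E P g := ⟨ht, h1⟩
    rw [h] at this
    exact this
  · intro h
    ext t
    simp only [Set.mem_empty_iff_false, iff_false]
    rintro ⟨h1, h2⟩
    exact not_both h1.1 g (h t h1) h2

variable {E}

lemma nn_lt_of_neg {g : G} {t : W} (ht : t ∈ RP cs P) (h : E.A g (rt cs t) ≤ 0) :
    nn E P (g * E.ι t) < nn E P g := by
  classical
  have htg : t ∈ ng E P g := ⟨ht, h⟩
  have h0 : (ng E P g \ {t}).ncard + 1 = nn E P g :=
    Set.ncard_sdiff_singleton_add_one htg (ng_finite E g)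
  have h1 : nn E P (g * E.ι t) ≤ (ng E P g \ {t}).ncard := by
    apply Set.ncard_le_ncard_of_injOn (fun s => if 0 ≤ geo cs t (rt cs s) then t * s * t⁻¹ else s) ?_ ?_
      ((ng_finite E g).subset Set.sdiff_subset)
    · intro s hs
      obtain ⟨hs1, hs2⟩ := hs
      rw [A_mul_ι] at hs2
      show (if 0 ≤ geo cs t (rt cs s) then t * s * t⁻¹ else s) ∈ ng E P g \ {t}
      split_ifs with hc
      · have h2 : rt cs (t * s * t⁻¹) = geo cs t (rt cs s) := rt_conj_pos hs1.1 t hc
        refine ⟨⟨RP_conj ht hs1, by rw [h2]; exact hs2⟩, ?_⟩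
        intro h3
        have h4 : s = t := by
          have h3' : t * s * t⁻¹ = t := h3
          calc s = t⁻¹ * (t * s * t⁻¹) * t := by group
            _ = t := by rw [h3']; group
        rw [h4, geo_rt_self ht.1] at hc
        exact (rt_isRt ht.1).not_both (rt_pos ht.1) (neg_nonneg.mp hc)
      · have hc' : geo cs t (rt cs s) ≤ 0 := ((rt_isRt hs1.1).geo t).cases.resolve_left hc
        have h2 : rt cs (t * s * t⁻¹) = - geo cs t (rt cs s) := rt_conj_neg hs1.1 t hc'
        have h3 : 0 ≤ rt cs (t * s * t⁻¹) := rt_pos (hs1.1.conj t)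
        set c := bil M (rt cs t) (rt cs s) with hcdef
        have h4 : rt cs s + rt cs (t * s * t⁻¹) = c • rt cs t := by
          rw [h2, geo_refl ht.1]; module
        have hcpos : 0 ≤ c := by
          by_contra hneg
          push Not at hneg
          have h5 : c • rt cs t ≤ 0 := smul_nonpos_of_nonpos_of_nonneg hneg.le (rt_pos ht.1)
          have h6 : rt cs s ≤ 0 := by
            have : rt cs s = c • rt cs t - rt cs (t * s * t⁻¹) := by rw [← h4]; abel
            rw [this]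
            exact sub_nonpos_of_le (h5.trans h3)
          exact (rt_isRt hs1.1).not_both (rt_pos hs1.1) h6
        have h5 : E.A g (rt cs s) = c • E.A g (rt cs t) + E.A g (geo cs t (rt cs s)) := by
          have h6 : rt cs s = c • rt cs t + geo cs t (rt cs s) := by
            rw [← h4, h2]; abel
          rw [← map_smul, ← map_add, ← h6]
        refine ⟨⟨hs1, ?_⟩, ?_⟩
        · rw [h5]
          exact add_nonpos (smul_nonpos_of_nonneg_of_nonpos hcpos h) hs2
        · rintro rfl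
          have h7 : 0 ≤ E.A g (geo cs s (rt cs s)) := by
            rw [geo_rt_self hs1.1, map_neg]; exact neg_nonneg.mpr h
          rw [← A_mul_ι] at h7 hs2
          exact not_both hs1.1 _ h7 hs2
    · intro s hs s' hs' hss
      simp only at hss
      split_ifs at hss with h1 h2 h2
      · calc s = t⁻¹ * (t * s * t⁻¹) * t := by group
          _ = s' := by rw [hss]; group
      · exfalso
        have h3 := rt_conj_pos hs.1.1 t h1
        rw [hss] at h3
        apply h2
        rw [h3, geo_geo, ht.1.mul_self, map_one, Module.End.one_apply]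
        exact rt_pos hs.1.1
      · exfalso
        have h3 := rt_conj_pos hs'.1.1 t h2
        rw [← hss] at h3
        apply h1
        rw [h3, geo_geo, ht.1.mul_self, map_one, Module.End.one_apply]
        exact rt_pos hs'.1.1
      · exact hss
  omega

lemma nn_gt_of_pos {g : G} {t : W} (ht : t ∈ RP cs P) (h : 0 ≤ E.A g (rt cs t)) :
    nn E P g < nn E P (g * E.ι t) := by
  have h1 := nn_lt_of_neg (E := E) (g := g * E.ι t) ht
    (by rw [A_mul_refl ht.1]; exact neg_nonpos.mpr h)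
  rwa [mul_ι_ι ht.1] at h1

lemma len_lt_of_nn {g : G} {t : W} (ht : t ∈ RP cs P) (h : nn E P (g * E.ι t) < nn E P g) :
    E.len (g * E.ι t) < E.len g := by
  apply E.len_lt g t ht.1
  by_contra hc
  have := nn_gt_of_pos (E := E) ht (pos_of_not ht.1 hc)
  omega

lemma nn_ne {g : G} {t : W} (ht : t ∈ RP cs P) : nn E P (g * E.ι t) ≠ nn E P g := by
  by_cases hc : E.A g (rt cs t) ≤ 0
  · exact (nn_lt_of_neg (E := E) ht hc).ne
  · exact (nn_gt_of_pos (E := E) ht (pos_of_not ht.1 hc)).ne'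

/-- exact count for a canonical generator -/
lemma nn_can {a b : W} (hc : Can cs P a b) {g : G} (h : E.A g (rt cs a) ≤ 0) :
    nn E P (g * E.ι a) + 1 = nn E P g := by
  have hag : a ∈ ng E P g := ⟨hc.ha, h⟩
  have h0 : (ng E P g \ {a}).ncard + 1 = nn E P g :=
    Set.ncard_sdiff_singleton_add_one hag (ng_finite E g)
  have haa : a * a = 1 := hc.ha.1.mul_self
  have h1 : ng E P g \ {a} = (fun s => a * s * a⁻¹) '' ng E P (g * E.ι a) := by
    ext s
    simp only [Set.mem_sdiff, Set.mem_singleton_iff, Set.mem_image]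
    constructor
    · rintro ⟨⟨hs1, hs2⟩, hs3⟩
      refine ⟨a * s * a⁻¹, ⟨RP_conj hc.ha hs1, ?_⟩, ?_⟩
      · have h2 := hc.ca s hs1 hs3
        rw [A_mul_ι, rt_conj_pos hs1.1 a h2, geo_geo, haa, map_one, Module.End.one_apply]
        exact hs2
      · rw [hc.ha.1.inv]
        calc a * (a * s * a) * a = (a * a) * s * (a * a) := by group
          _ = s := by rw [haa]; group
    · rintro ⟨s', ⟨hs1, hs2⟩, rfl⟩
      have hne : s' ≠ a := by
        rintro rfl
        rw [A_mul_refl hs1.1] at hs2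
        exact not_both hs1.1 g (neg_nonpos.mp hs2) h
      have h2 := hc.ca s' hs1 hne
      refine ⟨⟨RP_conj hc.ha hs1, ?_⟩, ?_⟩
      · rw [rt_conj_pos hs1.1 a h2, ← A_mul_ι]; exact hs2
      · intro h3
        apply hne
        calc s' = a⁻¹ * (a * s' * a⁻¹) * a := by group
          _ = a := by rw [h3]; group
  rw [h1, Set.ncard_image_of_injective] at h0
  · exact h0
  · intro s s' hss
    simpa using hss

lemma nn_can_up {a b : W} (hc : Can cs P a b) {g : G} (h : 0 ≤ E.A g (rt cs a)) :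
    nn E P (g * E.ι a) = nn E P g + 1 := by
  have h1 := nn_can (E := E) hc (g := g * E.ι a)
    (by rw [A_mul_refl hc.ha.1]; exact neg_nonpos.mpr h)
  rw [mul_ι_ι hc.ha.1] at h1
  exact h1.symm

lemma nn_zero_of_can {a b : W} (hc : Can cs P a b) {g : G} (h1 : 0 ≤ E.A g (rt cs a))
    (h2 : 0 ≤ E.A g (rt cs b)) : nn E P g = 0 := by
  rw [nn_eq_zero_iff]
  intro t ht
  obtain ⟨x, y, hx, hy, e⟩ := hc.cone t ht
  rw [e, map_add, map_smul, map_smul]
  exact add_nonneg (smul_nonneg hx h1) (smul_nonneg hy h2)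

lemma exists_desc {a b : W} (hc : Can cs P a b) {g : G} (h : nn E P g ≠ 0) :
    E.A g (rt cs a) ≤ 0 ∨ E.A g (rt cs b) ≤ 0 := by
  by_contra hcon
  push Not at hcon
  exact h (nn_zero_of_can hc (pos_of_not hc.ha.1 hcon.1) (pos_of_not hc.hb.1 hcon.2))

end Pool.Agent.X260.QP
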