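import Pool.Agent.X260.QP.Red2
import Pool.Agent.X260.QP.Defs2
import Pool.Agent.Helper703.KL.Bruhat

set_option autoImplicit false

/-!
# (QP1) implies (QP2)
-/

namespace Pool.Agent.X260.QP

open CoxeterSystem

variable {B : Type*} {M : CoxeterMatrix B} {W : Type*} [Group W] {cs : CoxeterSystem M W}

lemma BrLe.length_le {x y : W} (h : BrLe cs x y) : x = y ∨ cs.length x < cs.length y :=
  Helper703.KL.BLe.length (cs := cs) h

lemma BrLe.inv {x y : W} (h : BrLe cs x y) : BrLe cs x⁻¹ y⁻¹ := by
  induction h with
  | refl => exact Relation.ReflTransGen.refl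
  | tail _ h2 ih =>
    rename_i b c _
    obtain ⟨t, ht, e, h3⟩ := h2
    refine ih.tail ⟨b⁻¹ * t * b, ?_, ?_, ?_⟩
    · have := ht.conj b⁻¹
      rwa [inv_inv] at this
    · rw [e, mul_inv_rev, mul_assoc, mul_inv_cancel, mul_one, ht.inv]
    · rw [cs.length_inv, cs.length_inv]; exact h3

lemma step2 (i : B) {z z1 t : W} (ht : cs.IsReflection t) (h1 : z1 = t * z)
    (h2 : cs.length z < cs.length z1) :
    z1 = cs.simple i * z ∨ BrLe cs (cs.simple i * z) (cs.simple i * z1) := by
  by_cases hti : t = cs.simple i
  · left; rw [h1, hti]
  · right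
    have ht' : cs.IsReflection (cs.simple i * t * cs.simple i) := by
      have := ht.conj (cs.simple i)
      rwa [cs.inv_simple] at this
    have e : cs.simple i * z1 = cs.simple i * t * cs.simple i * (cs.simple i * z) := by
      rw [h1]
      simp only [mul_assoc]
      rw [cs.simple_mul_simple_cancel_left]
    have h5 : cs.length (cs.simple i * z) < cs.length (cs.simple i * z1) := by
      by_contra hcon
      have h6 : cs.length (cs.simple i * z1) ≠ cs.length (cs.simple i * z) := by
        rw [e]
        exact ht'.length_mul_right_ne _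
      have h7 := Helper703.KL.refl_shift ht i hti z (by rw [← e]; omega)
      rw [← h1] at h7
      omega
    exact Relation.ReflTransGen.single ⟨_, ht', e, h5⟩

lemma lift_down (i : B) {z y : W} (h : BrLe cs z y) (hz : cs.length z < cs.length (cs.simple i * z)) :
    BrLe cs z (cs.simple i * y) := by
  induction h with
  | refl => exact Relation.ReflTransGen.single ⟨cs.simple i, cs.isReflection_simple i, rfl, hz⟩
  | tail h1 h2 ih =>
    obtain ⟨t, ht, e, h3⟩ := h2
    rcases step2 i ht e h3 with h4 | h4
    · rw [h4, cs.simple_mul_simple_cancel_left]; exact h1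
    · exact ih.trans h4

lemma lift_down_right (i : B) {z y : W} (h : BrLe cs z y)
    (hz : cs.length z < cs.length (z * cs.simple i)) : BrLe cs z (y * cs.simple i) := by
  have h1 := lift_down i h.inv (by
    rw [cs.length_inv, ← cs.length_inv (cs.simple i * z⁻¹), mul_inv_rev, inv_inv, cs.inv_simple]
    exact hz)
  have h2 := h1.inv
  rwa [mul_inv_rev, inv_inv, inv_inv, cs.inv_simple] at h2

/-- **(QP1) implies (QP2)** -/
theorem QP1_QP2 (K : Set (WPlus cs)) (hK : ∀ (g : W), ∀ w ∈ K, inc g * w * (inc g)⁻¹ ∈ K)
    (hI : ∀ w ∈ K, w * w = 1) (h1 : QP1 cs K) : QP2 cs K := by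
  intro r hr w hw i hlt hlt2
  set s := cs.simple i with hs
  set v := inc r * w * inc r with hv
  have hri : (inc r : WPlus cs)⁻¹ = inc r := by rw [← map_inv, hr.inv]
  have hvK : v ∈ K := by
    have := hK r w hw
    rwa [hri] at this
  have hrvr : inc r * v * inc r = w := by
    rw [hv]
    have : (inc r : WPlus cs) * inc r = 1 := by rw [← map_mul, hr.mul_self, map_one]
    calc inc r * (inc r * w * inc r) * inc r = (inc r * inc r) * w * (inc r * inc r) := by
          simp only [mul_assoc]
      _ = w := by rw [this, one_mul, mul_one]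
  have hle : BrLe cs w.left v.left := by
    have := strong_exchange_gen K hK h1 hvK (hI v hvK) hr (by rw [hrvr]; exact hlt)
    rw [hrvr] at this
    exact this.2
  have hvr : v.right = w.right := rr_right r w
  set a := w.left with ha
  set b := v.left with hb
  set j := pm w.right i with hj
  have hsj : ((w.right : MulAut W) s) = cs.simple j := pm_spec w.right i
  have e1 : (inc s * w * inc s).left = s * a * cs.simple j := by
    rw [rr_left, hsj]
  have e2 : (inc s * inc r * w * inc r * inc s).left = s * b * cs.simple j := by
    have : inc s * inc r * w * inc r * inc s = inc s * v * inc s := by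
      rw [hv]; simp only [mul_assoc]
    rw [this, rr_left, hvr, hsj]
  have hb' : b = r * a * (w.right : MulAut W) r := rr_left r w
  have hpar : cs.length b % 2 = cs.length a % 2 := by
    have o1 := hr.odd_length
    have o2 := (aut_refl w.right hr).odd_length
    rw [hb', cs.length_mul_mod_two, Nat.add_mod, cs.length_mul_mod_two]
    have o1' := Nat.odd_iff.mp o1
    have o2' := Nat.odd_iff.mp o2
    omega
  have hL : ∀ x, cs.length (s * x) = cs.length x + 1 ∨ cs.length (s * x) + 1 = cs.length x :=
    fun x => cs.length_simple_mul x i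
  have hparS : ∀ x : W, cs.length (s * x * cs.simple j) % 2 = cs.length x % 2 := by
    intro x
    rcases hL x with h | h <;>
      rcases cs.length_mul_simple (s * x) j with h' | h' <;> omega
  have hlow : ∀ x : W, cs.length x ≤ cs.length (s * x * cs.simple j) + 2 := by
    intro x
    rcases hL x with h | h <;>
      rcases cs.length_mul_simple (s * x) j with h' | h' <;> omega
  simp only [lenP] at hlt hlt2
  rw [e1, e2] at hlt2
  rw [← ha, ← hb] at hlt
  have p1 := hparS a
  have p2 := hparS b
  have l1 := hlow b
  have hla : cs.length (s * a * cs.simple j) = cs.length a + 2 := by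
    have : cs.length (s * a * cs.simple j) ≤ cs.length a + 2 := by
      rcases hL a with h | h <;>
        rcases cs.length_mul_simple (s * a) j with h' | h' <;> omega
    omega
  have hlb : cs.length (s * b * cs.simple j) ≤ cs.length a := by omega
  have hsa : cs.length a < cs.length (s * a) := by
    rcases cs.length_mul_simple (s * a) j with h' | h' <;> omega
  have has : cs.length a < cs.length (a * cs.simple j) := by
    rcases hL (a * cs.simple j) with h' | h' <;>
      rw [← mul_assoc] at h' <;> omega
  have h3 := lift_down_right j (lift_down i hle hsa) has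
  rcases h3.length_le with h4 | h4
  · apply SemidirectProduct.ext
    · rw [e1, ← hb, h4]
      simp only [mul_assoc, hs]
      rw [cs.simple_mul_simple_self, mul_one, cs.simple_mul_simple_cancel_left]
    · rw [rr_right, rr_right]
  · exfalso
    have : cs.length a < cs.length (s * b * cs.simple j) := h4
    omega

lemma class_closed {K : Set (WPlus cs)} (hK : IsWClass cs K) (g : W) :
    ∀ w ∈ K, inc g * w * (inc g)⁻¹ ∈ K := by
  obtain ⟨x, rfl⟩ := hK
  rintro _ ⟨u, rfl⟩
  refine ⟨g * u, ?_⟩
  have : (inc (g * u) : WPlus cs) = inc g * inc u := map_mul _ _ _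
  rw [this, mul_inv_rev]
  simp only [mul_assoc]

end Pool.Agent.X260.QP
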