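import Pool.Agent.X260.QP.Inst
import Pool.Agent.W838.CoxCocycle

set_option autoImplicit false

/-!
# Reduction to finite rank: standard parabolic subgroups
-/

namespace Pool.Agent.X260.QP

open Pool.Agent.TH107 Pool.Agent.Helper741 CoxeterSystem Real

section dual
variable {B : Type*} (M : CoxeterMatrix B)

/-- submatrix of a Coxeter matrix -/
def MJ (J : Finset B) : CoxeterMatrix J where
  M := fun i j => M i j
  isSymm := by
    ext i j
    exact M.symmetric j i
  diagonal := fun i => M.diagonal i
  off_diagonal := fun i j h => M.off_diagonal i j (fun e => h (Subtype.ext e))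

lemma MJ_apply (J : Finset B) (i j : J) : MJ M J i j = M i j := rfl

lemma cc_MJ (J : Finset B) (i j : J) : cc (MJ M J) i j = cc M i j := rfl

/-- dual reflection -/
noncomputable def dd (i : B) : Module.End ℝ (B → ℝ) where
  toFun f := fun k => f k + 2 * cc M i k * f i
  map_add' f g := by ext k; simp only [Pi.add_apply]; ring
  map_smul' c f := by ext k; simp only [Pi.smul_apply, smul_eq_mul, RingHom.id_apply]; ring

lemma dd_apply (i : B) (f : B → ℝ) (k : B) : dd M i f k = f k + 2 * cc M i k * f i := rfl

/-- restriction -/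
def res (J : Finset B) (f : B → ℝ) : J → ℝ := fun k => f k

lemma res_dd (J : Finset B) (i : J) (f : B → ℝ) :
    res J (dd M i f) = dd (MJ M J) i (res J f) := rfl

lemma res_surj (J : Finset B) : Function.Surjective (res (B := B) J) := by
  classical
  intro g
  refine ⟨fun k => if h : k ∈ J then g ⟨k, h⟩ else 0, ?_⟩
  ext k
  simp [res]

lemma pair_dd [Fintype B] [DecidableEq B] (i : B) (f v : B → ℝ) :
    ∑ k, dd M i f k * v k = ∑ k, f k * sg M i v k := by
  simp only [dd_apply, sg_apply, Pi.sub_apply, Pi.smul_apply, smul_eq_mul]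
  have h1 : ∑ k, f k * (v k - coroot M i v * ee i k) = ∑ k, f k * v k - coroot M i v * f i := by
    simp only [mul_sub, Finset.sum_sub_distrib]
    congr 1
    rw [Finset.sum_eq_single i]
    · simp [ee]; ring
    · intro b _ hb; simp [ee, hb]
    · simp
  rw [h1, coroot_apply]
  simp only [add_mul, Finset.sum_add_distrib]
  have : ∑ k, 2 * cc M i k * f i * v k = - ((∑ j, -2 * cc M i j * v j) * f i) := by
    rw [Finset.sum_mul, ← Finset.sum_neg_distrib]
    apply Finset.sum_congr rfl
    intro k _; ring
  rw [this]
  ring

lemma pair_ext [Fintype B] [DecidableEq B] {f g : B → ℝ}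
    (h : ∀ v : B → ℝ, ∑ k, f k * v k = ∑ k, g k * v k) : f = g := by
  ext i
  have := h (ee i)
  simpa [ee, Pi.single_apply] using this

lemma pair_pow [Fintype B] [DecidableEq B] (i j : B) (m : ℕ) (f v : B → ℝ) :
    ∑ k, ((dd M i * dd M j) ^ m) f k * v k = ∑ k, f k * ((sg M j * sg M i) ^ m) v k := by
  induction m generalizing f v with
  | zero => simp
  | succ m ih =>
    rw [pow_succ', pow_succ, Module.End.mul_apply, Module.End.mul_apply, Module.End.mul_apply,
      Module.End.mul_apply, pair_dd, pair_dd, ih]

lemma dd_pow_fin [Fintype B] [DecidableEq B] (i j : B) : (dd M i * dd M j) ^ M i j = 1 := by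
  apply LinearMap.ext
  intro f
  apply pair_ext
  intro v
  rw [pair_pow, M.symmetric, sg_liftable M j i]
  rfl

lemma res_pow (J : Finset B) (i j : J) (m : ℕ) (f : B → ℝ) :
    res J (((dd M i * dd M j) ^ m) f) = ((dd (MJ M J) i * dd (MJ M J) j) ^ m) (res J f) := by
  induction m with
  | zero => rfl
  | succ m ih =>
    rw [pow_succ', pow_succ', Module.End.mul_apply, Module.End.mul_apply, Module.End.mul_apply,
      Module.End.mul_apply, res_dd, res_dd, ih]

lemma dd_liftable : M.IsLiftable (dd M) := by
  classical
  intro i j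
  apply LinearMap.ext
  intro f
  ext k
  let J : Finset B := {i, j, k}
  have hi : i ∈ J := by simp [J]
  have hj : j ∈ J := by simp [J]
  have hk : k ∈ J := by simp [J]
  have h1 := res_pow M J ⟨i, hi⟩ ⟨j, hj⟩ (M i j) f
  have h2 := dd_pow_fin (MJ M J) ⟨i, hi⟩ ⟨j, hj⟩
  rw [MJ_apply] at h2
  rw [h2] at h1
  exact congrFun h1 ⟨k, hk⟩

end dual

section par
variable {B : Type*} {M : CoxeterMatrix B} {W : Type*} [Group W] (cs : CoxeterSystem M W)

/-- the dual representation -/
noncomputable def dr : W →* Module.End ℝ (B → ℝ) := cs.lift ⟨dd M, dd_liftable M⟩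

@[simp] lemma dr_simple (i : B) : dr cs (cs.simple i) = dd M i :=
  cs.lift_apply_simple (dd_liftable M) i

lemma pair_dr [Fintype B] [DecidableEq B] (w : W) (f v : B → ℝ) :
    ∑ k, dr cs w f k * v k = ∑ k, f k * geo cs w⁻¹ v k := by
  induction w using cs.simple_induction_left generalizing v with
  | one => simp
  | mul_simple_left w i ih =>
    rw [map_mul, Module.End.mul_apply, dr_simple, pair_dd, ih, mul_inv_rev, cs.inv_simple, map_mul,
      Module.End.mul_apply, geo_simple]

lemma dr_injective_fin [Fintype B] [DecidableEq B] {w : W} (h : dr cs w = 1) : w = 1 := by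
  have h1 : geo cs w⁻¹ = 1 := by
    apply LinearMap.ext
    intro v
    apply pair_ext
    intro f
    have h2 := pair_dr cs w f v
    rw [h] at h2
    have h3 : ∑ k, geo cs w⁻¹ v k * f k = ∑ k, f k * geo cs w⁻¹ v k := by
      apply Finset.sum_congr rfl; intro k _; ring
    rw [h3, ← h2]
    apply Finset.sum_congr rfl; intro k _
    rw [Module.End.one_apply, Module.End.one_apply]; ring
  have h2 : w⁻¹ = 1 := by
    apply geo_injective cs
    rw [h1, map_one]
  rwa [inv_eq_one] at h2

variable (J : Finset B)

/-- the Coxeter system of the standard parabolic -/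
abbrev csJ (M : CoxeterMatrix B) (J : Finset B) : CoxeterSystem (MJ M J) (MJ M J).Group :=
  (MJ M J).toCoxeterSystem

/-- embedding of the standard parabolic -/
noncomputable def emb : (MJ M J).Group →* W :=
  (csJ M J).lift ⟨fun i => cs.simple i, fun i j => cs.simple_mul_simple_pow i j⟩

@[simp] lemma emb_simple (i : J) : emb cs J ((csJ M J).simple i) = cs.simple i :=
  (csJ M J).lift_apply_simple (fun i j => cs.simple_mul_simple_pow (i : B) j) i

lemma res_dr (w : (MJ M J).Group) (f : B → ℝ) :
    res J (dr cs (emb cs J w) f) = dr (csJ M J) w (res J f) := by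
  induction w using (csJ M J).simple_induction_left generalizing f with
  | one => simp
  | mul_simple_left w i ih =>
    rw [map_mul, map_mul, map_mul, Module.End.mul_apply, Module.End.mul_apply, emb_simple,
      dr_simple, dr_simple, res_dd, ih]

lemma emb_injective : Function.Injective (emb cs J) := by
  classical
  rw [injective_iff_map_eq_one]
  intro w hw
  apply dr_injective_fin (csJ M J)
  apply LinearMap.ext
  intro g
  obtain ⟨f, rfl⟩ := res_surj J g
  rw [← res_dr cs J, hw, map_one]; rfl

lemma emb_refl {t : (MJ M J).Group} (ht : (csJ M J).IsReflection t) :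
    cs.IsReflection (emb cs J t) := by
  obtain ⟨w, i, rfl⟩ := ht
  exact ⟨emb cs J w, i, by rw [map_mul, map_mul, map_inv, emb_simple]⟩

lemma emb_par (w t : (MJ M J).Group) :
    W838.Cox.par cs (emb cs J w) (emb cs J t) = W838.Cox.par (csJ M J) w t := by
  induction w using (csJ M J).simple_induction_left generalizing t with
  | one => rw [map_one, W838.Cox.par_one, W838.Cox.par_one]
  | mul_simple_left w i ih =>
    rw [map_mul, W838.Cox.par_mul, W838.Cox.par_mul, ← map_inv, ← map_mul, ← map_mul, ih,
      emb_simple]
    congr 1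
    by_cases h : t = (csJ M J).simple i
    · rw [h, emb_simple, W838.Cox.par_simple_self, W838.Cox.par_simple_self]
    · rw [W838.Cox.par_simple_ne _ _ _ h, W838.Cox.par_simple_ne]
      intro h1
      apply h
      apply emb_injective cs J
      rw [h1, emb_simple]

lemma emb_wordProd (ω : List J) :
    emb cs J ((csJ M J).wordProd ω) = cs.wordProd (ω.map Subtype.val) := by
  induction ω with
  | nil => simp
  | cons i ω ih => rw [wordProd_cons, map_mul, ih, List.map_cons, wordProd_cons, emb_simple]

lemma emb_length (w : (MJ M J).Group) : cs.length (emb cs J w) = (csJ M J).length w := by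
  classical
  obtain ⟨ω, hred, hω⟩ := (csJ M J).exists_isReduced w
  apply le_antisymm
  · rw [hω, emb_wordProd]
    refine (cs.length_wordProd_le _).trans ?_
    rw [List.length_map]
    exact hred.ge
  · obtain ⟨ω', hred', hω'⟩ := cs.exists_isReduced (emb cs J w)
    have h1 : ∀ t ∈ (csJ M J).leftInvSeq ω, emb cs J t ∈ cs.leftInvSeq ω' := by
      intro t ht
      apply W838.Cox.mem_leftInvSeq_of_par
      rw [← hω', emb_par]
      have h2 := (csJ M J).isLeftInversion_of_mem_leftInvSeq hred ht
      rw [← hω] at h2
      rw [(W838.Cox.par_eq_one_iff (csJ M J) w t h2.1).2 h2.2]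
      exact one_ne_zero
    have h3 : (((csJ M J).leftInvSeq ω).map (emb cs J)).Nodup :=
      hred.nodup_leftInvSeq.map (emb_injective cs J)
    have h4 : ((csJ M J).leftInvSeq ω).map (emb cs J) ⊆ cs.leftInvSeq ω' := by
      intro x hx
      rw [List.mem_map] at hx
      obtain ⟨t, ht, rfl⟩ := hx
      exact h1 t ht
    have h5 := (List.subperm_of_subset h3 h4).length_le
    rw [List.length_map, length_leftInvSeq, length_leftInvSeq] at h5
    rw [hω', hω, hred, hred']
    exact h5

/-- the simple reflections are distinct -/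
lemma simple_inj : Function.Injective cs.simple := by
  classical
  intro i j h
  let J : Finset B := {i, j}
  have hi : i ∈ J := by simp [J]
  have hj : j ∈ J := by simp [J]
  have h1 : (csJ M J).simple ⟨i, hi⟩ = (csJ M J).simple ⟨j, hj⟩ := by
    apply emb_injective cs J
    rw [emb_simple, emb_simple]; exact h
  have := simple_injective (csJ M J) h1
  exact congrArg Subtype.val this

lemma dvd_of_pow' {i j : B} {k : ℕ} (h : (cs.simple i * cs.simple j) ^ k = 1) : M i j ∣ k := by
  classical
  let J : Finset B := {i, j}
  have hi : i ∈ J := by simp [J]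
  have hj : j ∈ J := by simp [J]
  have h1 : ((csJ M J).simple ⟨i, hi⟩ * (csJ M J).simple ⟨j, hj⟩) ^ k = 1 := by
    apply emb_injective cs J
    rw [map_pow, map_mul, emb_simple, emb_simple, map_one]; exact h
  exact dvd_of_pow (csJ M J) h1

end par

end Pool.Agent.X260.QP
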