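import Pool.Agent.X260.QP.Red

set_option autoImplicit false

/-!
# The strong exchange property in arbitrary rank
-/

namespace Pool.Agent.X260.QP

open Pool.Agent.TH107 Pool.Agent.Helper741 CoxeterSystem Real

variable {B : Type*} {M : CoxeterMatrix B} {W : Type*} [Group W] {cs : CoxeterSystem M W}

lemma conj_left (g : W) (w : WPlus cs) :
    (inc g * w * (inc g)⁻¹).left = g * w.left * ((w.right : MulAut W) g)⁻¹ := by
  simp [SemidirectProduct.mul_left, SemidirectProduct.inv_left]

lemma conj_right (g : W) (w : WPlus cs) : (inc g * w * (inc g)⁻¹).right = w.right := by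
  simp [SemidirectProduct.mul_right, SemidirectProduct.inv_right]

lemma rr_left (r : W) (w : WPlus cs) :
    (inc r * w * inc r).left = r * w.left * (w.right : MulAut W) r := by
  simp [SemidirectProduct.mul_left]

lemma rr_right (r : W) (w : WPlus cs) : (inc r * w * inc r).right = w.right := by
  simp [SemidirectProduct.mul_right]

lemma sq_left {w : WPlus cs} (h : w * w = 1) : w.left * (w.right : MulAut W) w.left = 1 := by
  have := congrArg SemidirectProduct.left h
  simpa [SemidirectProduct.mul_left] using this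

lemma sq_right {w : WPlus cs} (h : w * w = 1) : w.right * w.right = 1 := by
  have := congrArg SemidirectProduct.right h
  simpa [SemidirectProduct.mul_right] using this

lemma pm_invol {θ : AutWS cs} (h : θ * θ = 1) (i : B) : pm θ (pm θ i) = i := by
  apply simple_inj cs
  rw [← pm_spec, ← pm_spec]
  have : ((θ * θ : AutWS cs) : MulAut W) (cs.simple i) = cs.simple i := by rw [h]; rfl
  exact this

lemma pm_dvd' (θ : AutWS cs) (i j : B) : M (pm θ i) (pm θ j) ∣ M i j := by
  apply dvd_of_pow' cs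
  rw [← pm_spec, ← pm_spec, ← map_mul, ← map_pow, cs.simple_mul_simple_pow, map_one]

lemma pm_M' {θ : AutWS cs} (h : θ * θ = 1) (i j : B) : M (pm θ i) (pm θ j) = M i j := by
  apply Nat.dvd_antisymm (pm_dvd' θ i j)
  have := pm_dvd' θ (pm θ i) (pm θ j)
  rwa [pm_invol h, pm_invol h] at this

section tau
variable {θ : AutWS cs} (hθ : θ * θ = 1) {J : Finset B} (hJ : ∀ i ∈ J, pm θ i ∈ J)

/-- the restriction of the automorphism, as a homomorphism -/
noncomputable def tauHom : (MJ M J).Group →* (MJ M J).Group :=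
  (csJ M J).lift ⟨fun i => (csJ M J).simple ⟨pm θ i, hJ i i.2⟩, by
    intro i j
    have := (csJ M J).simple_mul_simple_pow ⟨pm θ i, hJ i i.2⟩ ⟨pm θ j, hJ j j.2⟩
    rw [MJ_apply] at this
    rw [MJ_apply, ← pm_M' hθ]
    exact this⟩

lemma tauHom_simple (i : J) :
    tauHom hθ hJ ((csJ M J).simple i) = (csJ M J).simple ⟨pm θ i, hJ i i.2⟩ :=
  (csJ M J).lift_apply_simple _ i

lemma tauHom_invol (w : (MJ M J).Group) : tauHom hθ hJ (tauHom hθ hJ w) = w := by
  have : (tauHom hθ hJ).comp (tauHom hθ hJ) = MonoidHom.id _ := by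
    apply (csJ M J).ext_simple
    intro i
    rw [MonoidHom.comp_apply, tauHom_simple, tauHom_simple, MonoidHom.id_apply]
    congr 1
    exact Subtype.ext (pm_invol hθ i)
  exact DFunLike.congr_fun this w

/-- the restriction of the automorphism -/
noncomputable def tau : MulAut (MJ M J).Group :=
  { toFun := tauHom hθ hJ
    invFun := tauHom hθ hJ
    left_inv := tauHom_invol hθ hJ
    right_inv := tauHom_invol hθ hJ
    map_mul' := map_mul _ }

lemma tau_apply (w : (MJ M J).Group) : tau hθ hJ w = tauHom hθ hJ w := rfl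

lemma emb_tau (w : (MJ M J).Group) :
    emb cs J (tau hθ hJ w) = (θ : MulAut W) (emb cs J w) := by
  rw [tau_apply]
  have : (emb cs J).comp (tauHom hθ hJ) = ((θ : MulAut W).toMonoidHom).comp (emb cs J) := by
    apply (csJ M J).ext_simple
    intro i
    rw [MonoidHom.comp_apply, tauHom_simple, emb_simple, MonoidHom.comp_apply, emb_simple]
    exact (pm_spec θ i).symm
  exact DFunLike.congr_fun this w

lemma tau_mem : tau hθ hJ ∈ AutWS (csJ M J) := by
  show (tau hθ hJ) '' Set.range (csJ M J).simple = Set.range (csJ M J).simple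
  ext x
  constructor
  · rintro ⟨_, ⟨i, rfl⟩, rfl⟩
    exact ⟨_, (tauHom_simple hθ hJ i).symm⟩
  · rintro ⟨i, rfl⟩
    refine ⟨_, ⟨⟨pm θ i, hJ i i.2⟩, rfl⟩, ?_⟩
    rw [tau_apply, tauHom_simple]
    congr 1
    exact Subtype.ext (pm_invol hθ i)

/-- the restriction of the automorphism, as an element of `Aut(W_J, J)` -/
noncomputable def tauW : AutWS (csJ M J) := ⟨tau hθ hJ, tau_mem hθ hJ⟩

lemma tauW_sq : tauW hθ hJ * tauW hθ hJ = 1 := by
  apply Subtype.ext
  apply MulEquiv.ext
  intro w
  exact tauHom_invol hθ hJ w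

end tau

lemma exists_emb {J : Finset B} (ω : List B) (h : ∀ i ∈ ω, i ∈ J) :
    ∃ w', emb cs J w' = cs.wordProd ω := by
  induction ω with
  | nil => exact ⟨1, by simp⟩
  | cons i ω ih =>
    obtain ⟨w', hw'⟩ := ih (fun j hj => h j (List.mem_cons_of_mem _ hj))
    refine ⟨(csJ M J).simple ⟨i, h i (by simp)⟩ * w', ?_⟩
    rw [map_mul, emb_simple, hw', wordProd_cons]

lemma BrLe_emb {J : Finset B} {x y : (MJ M J).Group} (h : BrLe (csJ M J) x y) :
    BrLe cs (emb cs J x) (emb cs J y) := by
  induction h with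
  | refl => exact Relation.ReflTransGen.refl
  | tail _ h2 ih =>
    obtain ⟨t, ht, e, h3⟩ := h2
    refine ih.tail ⟨emb cs J t, emb_refl cs J ht, ?_, ?_⟩
    · rw [e, map_mul]
    · rw [emb_length, emb_length]; exact h3

/-- **Strong exchange** for `W`-closed sets satisfying (QP1). -/
theorem strong_exchange_gen (K : Set (WPlus cs))
    (hK : ∀ (g : W), ∀ w ∈ K, inc g * w * (inc g)⁻¹ ∈ K)
    (QP1 : ∀ r, cs.IsReflection r → ∀ w ∈ K, lenP cs (inc r * w * inc r) = lenP cs w →
      inc r * w * inc r = w)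
    {u : WPlus cs} (huK : u ∈ K) (huu : u * u = 1) {r : W} (hr : cs.IsReflection r)
    (hlt : lenP cs (inc r * u * inc r) < lenP cs u) : BrLeP cs (inc r * u * inc r) u := by
  classical
  set θ := u.right with hθdef
  have hθ : θ * θ = 1 := sq_right huu
  obtain ⟨v, i, hrv⟩ := hr
  obtain ⟨ω1, hω1⟩ := cs.wordProd_surjective u.left
  obtain ⟨ω2, hω2⟩ := cs.wordProd_surjective v
  let L : Finset B := (ω1 ++ ω2 ++ [i]).toFinset
  let J : Finset B := L ∪ L.image (pm θ)
  have hLJ : ∀ j ∈ ω1 ++ ω2 ++ [i], j ∈ J := by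
    intro j hj
    exact Finset.mem_union_left _ (List.mem_toFinset.mpr hj)
  have hJ : ∀ j ∈ J, pm θ j ∈ J := by
    intro j hj
    rcases Finset.mem_union.mp hj with h | h
    · exact Finset.mem_union_right _ (Finset.mem_image_of_mem _ h)
    · obtain ⟨k, hk, rfl⟩ := Finset.mem_image.mp h
      rw [pm_invol hθ]
      exact Finset.mem_union_left _ hk
  obtain ⟨a, ha⟩ := exists_emb (cs := cs) (J := J) ω1 (fun j hj => hLJ j (by simp [hj]))
  obtain ⟨v', hv'⟩ := exists_emb (cs := cs) (J := J) ω2 (fun j hj => hLJ j (by simp [hj]))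
  rw [hω1] at ha
  rw [hω2] at hv'
  have hiJ : i ∈ J := hLJ i (by simp)
  let r' : (MJ M J).Group := v' * (csJ M J).simple ⟨i, hiJ⟩ * v'⁻¹
  have hr' : (csJ M J).IsReflection r' := ⟨v', ⟨i, hiJ⟩, rfl⟩
  have hr'e : emb cs J r' = r := by
    rw [hrv, map_mul, map_mul, map_inv, emb_simple, hv']
  let τ := tauW hθ hJ
  let K' : Set (WPlus (csJ M J)) :=
    {y | y.right = τ ∧ ∃ z ∈ K, z.right = θ ∧ z.left = emb cs J y.left}
  let y0 : WPlus (csJ M J) := ⟨a, τ⟩
  have htau : ∀ w, emb cs J ((τ : MulAut (MJ M J).Group) w) = (θ : MulAut W) (emb cs J w) :=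
    emb_tau hθ hJ
  have hy0K : y0 ∈ K' := ⟨rfl, u, huK, rfl, ha.symm⟩
  have hy0 : y0 * y0 = 1 := by
    apply SemidirectProduct.ext
    · rw [SemidirectProduct.mul_left, SemidirectProduct.one_left]
      apply emb_injective cs J
      have := sq_left huu
      rw [map_mul, map_one]
      rw [← ha] at this
      rw [← htau] at this
      exact this
    · rw [SemidirectProduct.mul_right, SemidirectProduct.one_right]
      exact tauW_sq hθ hJ
  have hK' : ∀ (g : (MJ M J).Group), ∀ w ∈ K', inc g * w * (inc g)⁻¹ ∈ K' := by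
    rintro g w ⟨hwr, z, hz, hzr, hzl⟩
    refine ⟨by rw [conj_right, hwr], inc (emb cs J g) * z * (inc (emb cs J g))⁻¹, hK _ _ hz,
      by rw [conj_right, hzr], ?_⟩
    rw [conj_left, conj_left, map_mul, map_mul, map_inv, hzl, hwr, htau, hzr]
  have hlen : ∀ (g : (MJ M J).Group) (w : WPlus (csJ M J)) (z : WPlus cs), w.right = τ →
      z.right = θ → z.left = emb cs J w.left →
      emb cs J (inc g * w * inc g).left = (inc (emb cs J g) * z * inc (emb cs J g)).left := by
    intro g w z h1 h2 h3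
    rw [rr_left, rr_left, map_mul, map_mul, h1, htau, h2, h3]
  have QP1' : ∀ r, (csJ M J).IsReflection r → ∀ w ∈ K',
      lenP (csJ M J) (inc r * w * inc r) = lenP (csJ M J) w → inc r * w * inc r = w := by
    rintro t ht w ⟨hwr, z, hz, hzr, hzl⟩ hl
    have h1 := hlen t w z hwr hzr hzl
    have h2 := QP1 (emb cs J t) (emb_refl cs J ht) z hz (by
      rw [lenP, lenP, ← h1, hzl, emb_length, emb_length]; exact hl)
    apply SemidirectProduct.ext
    · apply emb_injective cs J
      rw [h1, h2, hzl]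
    · rw [rr_right]
  have hy0l := hlen r' y0 u rfl rfl ha.symm
  rw [hr'e] at hy0l
  have h := finite_rank K' hK' QP1' hy0K hy0 hr' (by
    rw [lenP, lenP, ← emb_length cs J, ← emb_length cs J, hy0l]
    rw [lenP, lenP, ← ha] at hlt
    exact hlt)
  refine ⟨by rw [rr_right], ?_⟩
  have h2 := BrLe_emb (cs := cs) h.2
  rw [hy0l] at h2
  have h3 : emb cs J y0.left = u.left := ha
  rw [h3] at h2
  exact h2

end Pool.Agent.X260.QP
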