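import Pool.Agent.X260.QP.Dih

set_option autoImplicit false

namespace Pool.Agent.X260.QP

open Pool.Agent.TH107 Pool.Agent.Helper741 CoxeterSystem Ext

variable {B : Type*} {M : CoxeterMatrix B} [Fintype B] [DecidableEq B]
variable {W : Type*} [Group W]
variable {cs : CoxeterSystem M W} {G : Type*} [Group G] {E : Ext cs G}
variable {P : Submodule ℝ (B → ℝ)} {a b : W}

/-- generic positive functionals -/
lemma exists_generic (S : Finset (B → ℝ)) (hS : ∀ v ∈ S, v ≠ 0) :
    ∃ f : (B → ℝ) →ₗ[ℝ] ℝ, (∀ i, 0 < f (ee i)) ∧ ∀ v ∈ S, f v ≠ 0 := by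
  classical
  let e : B ≃ Fin (Fintype.card B) := Fintype.equivFin B
  let p : (B → ℝ) → Polynomial ℝ := fun v => ∑ i, Polynomial.monomial (e i : ℕ) (v i)
  have hp : ∀ v, v ≠ 0 → p v ≠ 0 := by
    intro v hv h0
    apply hv
    ext i
    have := congrArg (fun q => q.coeff (e i : ℕ)) h0
    simp only [p, Polynomial.finsetSum_coeff, Polynomial.coeff_monomial, Polynomial.coeff_zero] at this
    rw [Finset.sum_eq_single i] at this
    · simpa using this
    · intro j _ hj
      rw [if_neg]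
      intro h
      exact hj (e.injective (Fin.ext h))
    · intro h; exact absurd (Finset.mem_univ i) h
  have hq : (∏ v ∈ S, p v) ≠ 0 := Finset.prod_ne_zero_iff.mpr fun v hv => hp v (hS v hv)
  obtain ⟨t, ht0, ht⟩ : ∃ t : ℝ, 0 < t ∧ (∏ v ∈ S, p v).eval t ≠ 0 := by
    by_contra hcon
    push Not at hcon
    apply hq
    apply Polynomial.eq_zero_of_infinite_isRoot
    apply Set.Infinite.mono (s := Set.Ioi (0 : ℝ))
    · intro t ht
      exact hcon t ht
    · exact Set.Ioi_infinite 0
  have hev : ∀ v : B → ℝ, (p v).eval t = ∑ i, t ^ (e i : ℕ) * v i := by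
    intro v
    simp only [p, Polynomial.eval_finsetSum, Polynomial.eval_monomial]
    exact Finset.sum_congr rfl fun i _ => mul_comm _ _
  refine ⟨∑ i, (t ^ (e i : ℕ)) • LinearMap.proj i, ?_, ?_⟩
  · intro i
    simp only [LinearMap.sum_apply, LinearMap.smul_apply, LinearMap.proj_apply, ee,
      Pi.single_apply, smul_eq_mul, mul_ite, mul_one, mul_zero]
    rw [Finset.sum_ite_eq' Finset.univ i]
    simp only [Finset.mem_univ, if_true]
    positivity
  · intro v hv
    rw [Polynomial.eval_prod, Finset.prod_ne_zero_iff] at ht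
    have := ht v hv
    rw [hev] at this
    simpa [LinearMap.sum_apply] using this

lemma vec_sum (v : B → ℝ) : v = ∑ i, v i • (ee i : B → ℝ) := by
  ext j
  simp [ee, Finset.sum_apply, Pi.single_apply]

lemma fun_pos {f : (B → ℝ) →ₗ[ℝ] ℝ} (hf : ∀ i, 0 < f (ee i)) {v : B → ℝ} (hv : 0 ≤ v)
    (hne : v ≠ 0) : 0 < f v := by
  rw [vec_sum v, map_sum]
  simp only [map_smul, smul_eq_mul]
  obtain ⟨i, hi⟩ : ∃ i, v i ≠ 0 := by
    by_contra hcon
    push Not at hcon
    exact hne (funext hcon)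
  apply Finset.sum_pos'
  · intro j _; exact mul_nonneg (hv j) (hf j).le
  · exact ⟨i, Finset.mem_univ i, mul_pos (lt_of_le_of_ne (hv i) (Ne.symm hi)) (hf i)⟩

lemma fun_nonneg {f : (B → ℝ) →ₗ[ℝ] ℝ} (hf : ∀ i, 0 ≤ f (ee i)) {v : B → ℝ} (hv : 0 ≤ v) :
    0 ≤ f v := by
  rw [vec_sum v, map_sum]
  simp only [map_smul, smul_eq_mul]
  exact Finset.sum_nonneg fun j _ => mul_nonneg (hv j) (hf j)

/-- making a functional dominant -/
lemma exists_dominant : ∀ (n : ℕ) (f : (B → ℝ) →ₗ[ℝ] ℝ),
    {t | cs.IsReflection t ∧ f (rt cs t) < 0}.Finite →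
    {t | cs.IsReflection t ∧ f (rt cs t) < 0}.ncard = n →
    ∃ h : W, ∀ t, cs.IsReflection t → 0 ≤ f (geo cs h (rt cs t)) := by
  intro n
  induction n with
  | zero =>
    intro f hfin hn
    refine ⟨1, fun t ht => ?_⟩
    rw [map_one, Module.End.one_apply]
    by_contra hcon
    push Not at hcon
    rw [Set.ncard_eq_zero hfin] at hn
    have : t ∈ {t | cs.IsReflection t ∧ f (rt cs t) < 0} := ⟨ht, hcon⟩
    rw [hn] at this
    exact this
  | succ n ih =>
    intro f hfin hn
    have hne : {t | cs.IsReflection t ∧ f (rt cs t) < 0}.Nonempty := by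
      rw [← Set.ncard_pos hfin]; omega
    obtain ⟨t, ht, hft⟩ := hne
    obtain ⟨i, hi⟩ : ∃ i, f (ee i) < 0 := by
      by_contra hcon
      push Not at hcon
      have := fun_nonneg hcon (rt_pos ht)
      linarith
    set s := cs.simple i with hs
    have hsr : cs.IsReflection s := cs.isReflection_simple i
    have hrs : rt cs s = ee i := rt_simple i
    have hss : s * s = 1 := hsr.mul_self
    have hpos : ∀ u, cs.IsReflection u → u ≠ s → rt cs (s * u * s⁻¹) = geo cs s (rt cs u) := by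
      intro u hu hus
      apply rt_conj_pos hu
      by_contra hcon
      have h1 := ((rt_isRt hu).geo s).not_nonneg.mp hcon
      apply hus
      apply rt_inj hu hsr
      rw [hrs]
      exact (rt_PR hu).eq_ee h1
    have himg : {t | cs.IsReflection t ∧ f (rt cs t) < 0} \ {s} =
        (fun u => s * u * s⁻¹) '' {t | cs.IsReflection t ∧ (f ∘ₗ geo cs s) (rt cs t) < 0} := by
      ext u
      simp only [Set.mem_sdiff, Set.mem_ofPred_eq, Set.mem_singleton_iff, Set.mem_image,
        LinearMap.comp_apply]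
      constructor
      · rintro ⟨⟨hu, hfu⟩, hus⟩
        refine ⟨s * u * s⁻¹, ⟨hu.conj s, ?_⟩, ?_⟩
        · rw [hpos u hu hus, geo_geo, hss, map_one, Module.End.one_apply]; exact hfu
        · rw [hsr.inv]
          calc s * (s * u * s) * s = (s * s) * u * (s * s) := by group
            _ = u := by rw [hss]; group
      · rintro ⟨u', ⟨hu', hfu'⟩, rfl⟩
        have hne' : u' ≠ s := by
          rintro rfl
          rw [geo_rt_self hsr, map_neg, hrs] at hfu'
          linarith
        refine ⟨⟨hu'.conj s, by rw [hpos u' hu' hne']; exact hfu'⟩, ?_⟩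
        intro h
        apply hne'
        calc u' = s⁻¹ * (s * u' * s⁻¹) * s := by group
          _ = s := by rw [h]; group
    have hinj : Function.Injective (fun u : W => s * u * s⁻¹) := by
      intro u u' huu
      simpa using huu
    have hsm : s ∈ {t | cs.IsReflection t ∧ f (rt cs t) < 0} := ⟨hsr, by rw [hrs]; exact hi⟩
    have hcard := Set.ncard_sdiff_singleton_add_one hsm hfin
    have hfin' : {t | cs.IsReflection t ∧ (f ∘ₗ geo cs s) (rt cs t) < 0}.Finite := by
      apply Set.Finite.of_finite_image _ hinj.injOn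
      rw [← himg]
      exact hfin.subset Set.sdiff_subset
    obtain ⟨h, hh⟩ := ih (f ∘ₗ geo cs s) hfin' (by
      rw [himg, Set.ncard_image_of_injective _ hinj] at hcard
      omega)
    refine ⟨s * h, fun t ht => ?_⟩
    rw [← geo_geo]
    exact hh t ht

/-- rotation sum -/
noncomputable def rs (cs : CoxeterSystem M W) (ρ : W) (N : ℕ) : (B → ℝ) →ₗ[ℝ] (B → ℝ) :=
  ∑ i ∈ Finset.range N, geo cs (ρ ^ i)

lemma rs_rho {ρ : W} {N : ℕ} (hρ : ρ ^ N = 1) (v : B → ℝ) :
    rs cs ρ N (geo cs ρ v) = rs cs ρ N v := by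
  unfold rs
  rw [LinearMap.sum_apply, LinearMap.sum_apply]
  have h1 : ∀ i, geo cs (ρ ^ i) (geo cs ρ v) = geo cs (ρ ^ (i + 1)) v := by
    intro i; rw [geo_geo, pow_succ]
  simp only [h1]
  have h2 := Finset.sum_range_succ (fun i => geo cs (ρ ^ i) v) N
  have h3 := Finset.sum_range_succ' (fun i => geo cs (ρ ^ i) v) N
  rw [hρ] at h2
  rw [pow_zero] at h3
  rw [h2] at h3
  exact (add_right_cancel h3).symm

/-- dihedral sum -/
noncomputable def av (cs : CoxeterSystem M W) (a b : W) (N : ℕ) : (B → ℝ) →ₗ[ℝ] (B → ℝ) :=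
  rs cs (a * b) N + rs cs (a * b) N ∘ₗ geo cs a

lemma av_a (hc : Can cs P a b) {N : ℕ} (v : B → ℝ) :
    av cs a b N (geo cs a v) = av cs a b N v := by
  simp only [av, LinearMap.add_apply, LinearMap.comp_apply]
  rw [geo_geo, hc.ha.1.mul_self, map_one, Module.End.one_apply, add_comm]

lemma av_b (hc : Can cs P a b) {N : ℕ} (hN : (a * b) ^ N = 1) (v : B → ℝ) :
    av cs a b N (geo cs b v) = av cs a b N v := by
  have haa : a * a = 1 := hc.ha.1.mul_self
  have hbb : b * b = 1 := hc.hb.1.mul_self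
  have h1 : rs cs (a * b) N (geo cs b v) = rs cs (a * b) N (geo cs a v) := by
    rw [← rs_rho hN (geo cs b v), geo_geo, mul_assoc, hbb, mul_one]
  have h2 : rs cs (a * b) N (geo cs a (geo cs b v)) = rs cs (a * b) N v := by
    rw [geo_geo, rs_rho hN]
  simp only [av, LinearMap.add_apply, LinearMap.comp_apply]
  rw [h1, h2, add_comm]

lemma av_sub_mem (hc : Can cs P a b) {N : ℕ} (v : B → ℝ) :
    av cs a b N v - (2 * (N : ℝ)) • v ∈ P := by
  have h1 : ∀ v, rs cs (a * b) N v - (N : ℝ) • v ∈ P := by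
    intro v
    unfold rs
    rw [LinearMap.sum_apply]
    have e : (∑ i ∈ Finset.range N, geo cs ((a * b) ^ i) v) - (N : ℝ) • v
        = ∑ i ∈ Finset.range N, (geo cs ((a * b) ^ i) v - v) := by
      rw [Finset.sum_sub_distrib, Finset.sum_const, Finset.card_range, Nat.cast_smul_eq_nsmul]
    rw [e]
    apply P.sum_mem
    intro i _
    have := rot_SP hc (i : ℤ)
    rw [zpow_natCast] at this
    exact this v
  have h2 := h1 v
  have h3 := h1 (geo cs a v)
  have h4 : geo cs a v - v ∈ P := RP_SP hc.ha v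
  have e : av cs a b N v - (2 * (N : ℝ)) • v = (rs cs (a * b) N v - (N : ℝ) • v) +
      (rs cs (a * b) N (geo cs a v) - (N : ℝ) • geo cs a v) + (N : ℝ) • (geo cs a v - v) := by
    simp only [av, LinearMap.add_apply, LinearMap.comp_apply]
    module
  rw [e]
  exact P.add_mem (P.add_mem h2 h3) (P.smul_mem _ h4)

/-- elements leaving the average invariant -/
def InvSub (cs : CoxeterSystem M W) (a b : W) (N : ℕ) : Subgroup W where
  carrier := {z | ∀ v, av cs a b N (geo cs z v) = av cs a b N v}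
  one_mem' := by intro v; simp
  mul_mem' := by
    intro z z' h h' v
    rw [← geo_geo, h, h']
  inv_mem' := by
    intro z h v
    rw [← h, geo_apply_inv]

lemma alt_mem_subgroup {H : Subgroup W} {x y : W} (hx : x ∈ H) (hy : y ∈ H) (k : ℕ) :
    alt x y k ∈ H := by
  induction k with
  | zero => simp [H.one_mem]
  | succ k ih =>
    rw [alt_succ']
    apply H.mul_mem ih
    split_ifs
    · exact hx
    · exact hy

theorem standardize (E : Ext cs G) (hc : Can cs P a b) {N : ℕ} (hN0 : 0 < N)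
    (hN : (a * b) ^ N = 1) :
    ∃ g : W, ∃ i j : B, geo cs g (rt cs a) = ee i ∧ geo cs g (rt cs b) = ee j := by
  classical
  have hN0' : (0 : ℝ) < N := by exact_mod_cast hN0
  have hava : av cs a b N (rt cs a) = 0 := by
    have h1 := av_a hc (N := N) (rt cs a)
    rw [geo_rt_self hc.ha.1, map_neg] at h1
    have h2 : (2 : ℝ) • av cs a b N (rt cs a) = 0 := by
      rw [two_smul]; nth_rewrite 1 [← h1]; simp
    exact (smul_eq_zero.mp h2).resolve_left (by norm_num)
  have havb : av cs a b N (rt cs b) = 0 := by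
    have h1 := av_b hc hN (rt cs b)
    rw [geo_rt_self hc.hb.1, map_neg] at h1
    have h2 : (2 : ℝ) • av cs a b N (rt cs b) = 0 := by
      rw [two_smul]; nth_rewrite 1 [← h1]; simp
    exact (smul_eq_zero.mp h2).resolve_left (by norm_num)
  have hav_ne : ∀ v, v ∉ P → av cs a b N v ≠ 0 := by
    intro v hv h0
    apply hv
    have h1 := av_sub_mem hc (N := N) v
    rw [h0, zero_sub] at h1
    have h2 := P.smul_mem (2 * (N : ℝ))⁻¹ (P.neg_mem h1)
    rw [neg_neg, smul_smul, inv_mul_cancel₀ (by positivity), one_smul] at h2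
    exact h2
  -- the finite set of exceptional roots
  let zz : ℕ × Bool → W := fun q => if q.2 then (a * b) ^ q.1 * a else (a * b) ^ q.1
  let F : Set (B → ℝ) := ⋃ q ∈ (Finset.range N ×ˢ (Finset.univ : Finset Bool)),
    {v : B → ℝ | PR cs v ∧ geo cs (zz q) v ≤ 0}
  have hF : F.Finite := by
    apply Set.Finite.biUnion (Finset.finite_toSet _)
    intro q _
    exact inv_finite (zz q)
  have hFnot : ∀ v, PR cs v → v ∉ F → 0 ≤ av cs a b N v ∧ av cs a b N v ≠ 0 := by
    intro v hv hvF
    have h1 : ∀ i < N, ∀ q : Bool, 0 ≤ geo cs (zz (i, q)) v := by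
      intro i hi q
      by_contra hcon
      apply hvF
      refine Set.mem_biUnion (x := (i, q)) (by simp [hi]) ⟨hv, ?_⟩
      exact ((hv.root).geo _).not_nonneg.mp hcon
    have h2 : ∀ i ∈ Finset.range N, 0 ≤ geo cs ((a * b) ^ i) v := by
      intro i hi; exact h1 i (Finset.mem_range.mp hi) false
    have h3 : ∀ i ∈ Finset.range N, 0 ≤ geo cs ((a * b) ^ i) (geo cs a v) := by
      intro i hi
      have := h1 i (Finset.mem_range.mp hi) true
      simp only [zz, if_true] at this
      rwa [geo_geo]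
    have h4 : v ≤ rs cs (a * b) N v := by
      unfold rs
      rw [LinearMap.sum_apply]
      have := Finset.single_le_sum h2 (Finset.mem_range.mpr hN0)
      simpa using this
    have h5 : 0 ≤ rs cs (a * b) N (geo cs a v) := by
      unfold rs
      rw [LinearMap.sum_apply]
      exact Finset.sum_nonneg h3
    have h6 : v ≤ av cs a b N v := by
      simp only [av, LinearMap.add_apply, LinearMap.comp_apply]
      exact le_add_of_le_of_nonneg h4 h5
    refine ⟨hv.pos.trans h6, ?_⟩
    intro h0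
    rw [h0] at h6
    exact hv.root.not_both hv.pos h6
  obtain ⟨ξ0, hξpos, hξne⟩ := exists_generic (B := B)
    ((hF.toFinset.filter (fun v => v ∉ P)).image (av cs a b N)) (by
      intro v hv
      simp only [Finset.mem_image, Finset.mem_filter] at hv
      obtain ⟨u, ⟨_, hu⟩, rfl⟩ := hv
      exact hav_ne u hu)
  set ξ : (B → ℝ) →ₗ[ℝ] ℝ := ξ0 ∘ₗ av cs a b N with hξ
  have hξzero : ∀ v, PR cs v → ξ v = 0 → v ∈ P := by
    intro v hv h0
    by_contra hvP
    by_cases hvF : v ∈ F
    · apply hξne (av cs a b N v) _ h0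
      simp only [Finset.mem_image, Finset.mem_filter, Set.Finite.mem_toFinset]
      exact ⟨v, ⟨hvF, hvP⟩, rfl⟩
    · obtain ⟨h1, h2⟩ := hFnot v hv hvF
      have := fun_pos hξpos h1 h2
      rw [hξ, LinearMap.comp_apply] at h0
      linarith
  have hξfin : {t | cs.IsReflection t ∧ ξ (rt cs t) < 0}.Finite := by
    apply Set.Finite.of_finite_image (f := rt cs)
    · apply hF.subset
      rintro _ ⟨t, ⟨ht, hlt⟩, rfl⟩
      by_contra hvF
      obtain ⟨h1, h2⟩ := hFnot _ (rt_PR ht) hvF
      have := fun_pos hξpos h1 h2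
      rw [hξ, LinearMap.comp_apply] at hlt
      linarith
    · intro t ht t' ht' h
      exact rt_inj ht.1 ht'.1 h
  obtain ⟨h, hh⟩ := exists_dominant _ ξ hξfin rfl
  -- adjust the coset
  have haI : a ∈ InvSub cs a b N := av_a hc
  have hbI : b ∈ InvSub cs a b N := av_b hc hN
  obtain ⟨g0, hg0, hg0I⟩ : ∃ g0 : W, nn E P (E.ι g0) = 0 ∧ g0⁻¹ * h⁻¹ ∈ InvSub cs a b N := by
    obtain ⟨w0, hw⟩ := exists_AF (E := E) hc _ (E.ι h⁻¹) rfl
    have key : ∀ x y : W, x ∈ InvSub cs a b N → y ∈ InvSub cs a b N → ∀ k,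
        AF E P x y w0 k (E.ι h⁻¹) → ∃ g0 : W, nn E P (E.ι g0) = 0 ∧
          g0⁻¹ * h⁻¹ ∈ InvSub cs a b N := by
      intro x y hx hy k hAF
      obtain ⟨q1, q2, _⟩ := hAF
      refine ⟨h⁻¹ * (alt x y k)⁻¹, ?_, ?_⟩
      · rw [map_mul, q2]
        have : w0 * E.ι (alt x y k) * E.ι (alt x y k)⁻¹ = w0 := by
          rw [map_inv]; group
        rw [this]; exact q1
      · have : (h⁻¹ * (alt x y k)⁻¹)⁻¹ * h⁻¹ = alt x y k := by group
        rw [this]
        exact alt_mem_subgroup hx hy k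
    rcases hw with hw | hw
    · exact key a b haI hbI _ hw
    · exact key b a hbI haI _ hw
  have hg0' := (nn_eq_zero_iff (E := E) (E.ι g0)).mp hg0
  have hF0 : ∀ v, ξ (geo cs g0⁻¹ v) = ξ (geo cs h v) := by
    intro v
    have h1 := hg0I (geo cs h v)
    rw [geo_geo, mul_assoc, inv_mul_cancel, mul_one] at h1
    rw [hξ, LinearMap.comp_apply, LinearMap.comp_apply, h1]
  have hFs : ∀ i, 0 ≤ ξ (geo cs g0⁻¹ (ee i)) := by
    intro i
    rw [hF0, ← rt_simple (cs := cs) i]
    exact hh _ (cs.isReflection_simple i)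
  have pa : 0 ≤ geo cs g0 (rt cs a) := by have := hg0' a hc.ha; rwa [A_ι] at this
  have pb : 0 ≤ geo cs g0 (rt cs b) := by have := hg0' b hc.hb; rwa [A_ι] at this
  -- support of the images
  have key : ∀ c ∈ RP cs P, 0 ≤ geo cs g0 (rt cs c) → ξ (rt cs c) = 0 →
      ∀ i, geo cs g0 (rt cs c) i ≠ 0 →
      ∃ x y : ℝ, 0 ≤ x ∧ 0 ≤ y ∧ ee i = x • geo cs g0 (rt cs a) + y • geo cs g0 (rt cs b) := by
    intro c hcR hpos hξc i hi
    have h1 : ξ (geo cs g0⁻¹ (geo cs g0 (rt cs c))) = 0 := by rw [geo_inv_apply]; exact hξc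
    have h2 : ξ (geo cs g0⁻¹ (ee i)) = 0 := by
      rw [vec_sum (geo cs g0 (rt cs c)), map_sum, map_sum] at h1
      simp only [map_smul, smul_eq_mul] at h1
      rw [Finset.sum_eq_zero_iff_of_nonneg] at h1
      · exact (mul_eq_zero.mp (h1 i (Finset.mem_univ i))).resolve_left hi
      · intro j _; exact mul_nonneg (hpos j) (hFs j)
    have hroot : IsRt cs (geo cs g0⁻¹ (ee i)) := (isRt_ee cs i).geo g0⁻¹
    rcases hroot.cases with h3 | h3
    · have h4 : geo cs g0⁻¹ (ee i) ∈ P := hξzero _ ⟨hroot, h3⟩ h2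
      obtain ⟨t, ht, hte⟩ := exists_refl_of_root (cs := cs) ⟨hroot, h3⟩
      obtain ⟨x, y, hx, hy, e⟩ := hc.cone t ⟨ht, by rw [hte]; exact h4⟩
      refine ⟨x, y, hx, hy, ?_⟩
      rw [← map_smul, ← map_smul, ← map_add, ← e, hte, geo_apply_inv]
    · exfalso
      have hPR : PR cs (-geo cs g0⁻¹ (ee i)) := ⟨hroot.neg, neg_nonneg.mpr h3⟩
      have h4 : -geo cs g0⁻¹ (ee i) ∈ P := hξzero _ hPR (by rw [map_neg, h2, neg_zero])
      obtain ⟨t, ht, hte⟩ := exists_refl_of_root (cs := cs) hPR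
      have h5 := hg0' t ⟨ht, by rw [hte]; exact h4⟩
      rw [A_ι, hte, map_neg, geo_apply_inv] at h5
      exact (isRt_ee cs i).not_both (ee_nonneg i) (neg_nonneg.mp h5)
  have hξa : ξ (rt cs a) = 0 := by rw [hξ, LinearMap.comp_apply, hava, map_zero]
  have hξb : ξ (rt cs b) = 0 := by rw [hξ, LinearMap.comp_apply, havb, map_zero]
  have PRa : PR cs (geo cs g0 (rt cs a)) := ⟨(rt_isRt hc.ha.1).geo g0, pa⟩
  have PRb : PR cs (geo cs g0 (rt cs b)) := ⟨(rt_isRt hc.hb.1).geo g0, pb⟩
  have hnab : geo cs g0 (rt cs a) ≠ geo cs g0 (rt cs b) := by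
    intro h
    apply hc.hab
    apply rt_inj hc.ha.1 hc.hb.1
    exact geo_injective_apply cs g0 h
  -- final combinatorics
  have fin : ∀ R R' : B → ℝ, PR cs R → PR cs R' → R ≠ R' →
      (∀ i, R i ≠ 0 → ∃ x y : ℝ, 0 ≤ x ∧ 0 ≤ y ∧ (ee i : B → ℝ) = x • R + y • R') →
      ∃ i, R = ee i := by
    intro R R' hR hR' hne hs
    have step : ∀ i, R i ≠ 0 → R = ee i ∨ R' = ee i := by
      intro i hi
      obtain ⟨x, y, hx, hy, e⟩ := hs i hi
      have hk : ∀ k, k ≠ i → x * R k = 0 ∧ y * R' k = 0 := by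
        intro k hk
        have h1 := congrFun e k
        simp only [ee, Pi.single_apply, hk, if_false, Pi.add_apply, Pi.smul_apply, smul_eq_mul] at h1
        have h2 := mul_nonneg hx (hR.pos k)
        have h3 := mul_nonneg hy (hR'.pos k)
        constructor <;> linarith
      have single : ∀ (Q : B → ℝ), PR cs Q → (∀ k, k ≠ i → Q k = 0) → Q = ee i := by
        intro Q hQ hk'
        apply hQ.eq_of_smul (PR_ee cs i) (a := Q i)
        ext k
        by_cases hki : k = i
        · subst hki; simp [ee]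
        · simp [ee, hk' k hki, hki]
      by_cases hx0 : x = 0
      · right
        have hy0 : y ≠ 0 := by
          rintro rfl
          rw [hx0, zero_smul, zero_smul, add_zero] at e
          exact ee_ne_zero i e
        exact single R' hR' fun k hk' => (mul_eq_zero.mp (hk k hk').2).resolve_left hy0
      · left
        exact single R hR fun k hk' => (mul_eq_zero.mp (hk k hk').1).resolve_left hx0
    obtain ⟨i, hi⟩ : ∃ i, R i ≠ 0 := by
      by_contra hcon
      push Not at hcon
      exact hR.root.ne_zero (funext hcon)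
    by_contra hcon
    push Not at hcon
    have h1 := (step i hi).resolve_left (hcon i)
    apply hne
    have h2 : ∀ k, k ≠ i → R k = 0 := by
      intro k hk
      by_contra hk0
      have h3 := (step k hk0).resolve_left (hcon k)
      rw [h1] at h3
      have h4 := congrFun h3 k
      simp only [ee, Pi.single_apply, hk, if_false, if_true] at h4
      exact zero_ne_one h4
    rw [h1]
    apply hR.eq_of_smul (PR_ee cs i) (a := R i)
    ext k
    by_cases hki : k = i
    · subst hki; simp [ee]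
    · simp [ee, h2 k hki, hki]
  obtain ⟨i, hi⟩ := fin _ _ PRa PRb hnab (key a hc.ha pa hξa)
  obtain ⟨j, hj⟩ := fin _ _ PRb PRa hnab.symm (by
    intro i hi
    obtain ⟨x, y, hx, hy, e⟩ := key b hc.hb pb hξb i hi
    exact ⟨y, x, hy, hx, by rw [e, add_comm]⟩)
  exact ⟨g0, i, j, hi, hj⟩

end Pool.Agent.X260.QP
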